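import Pool.Agent.Helper49.RZ.Mod

/-!
# Project RZ (MP_77656e_ag), literal layer: statements of the modules L1 - L9
-/

set_option autoImplicit false

namespace Pool.Agent.Helper49.RZ

open Pool.Agent.Helper17.RZ

universe u v w v' w' w₁ w₂ w₃ w₄ w₅ w₆

noncomputable section

/-! ### L1: thick closures and DG functors -/

/-- DG functors preserve thick closures. -/
def ThickMap : Prop :=
  ∀ {k : Type u} [Field k] {C : DGCat.{u, v, w} k} {D : DGCat.{u, v', w'} k} (F : DGFun C D)
    (S : C.Obj → Prop) (T : D.Obj → Prop), (∀ X, S X → DGThick D T (F.obj X)) →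
    ∀ X, DGThick C S X → DGThick D T (F.obj X)

/-- Thick closures inside a full subcategory which contains the thick closure of `S`. -/
def ThickFull : Prop :=
  ∀ {k : Type u} [Field k] {C : DGCat.{u, v, w} k} (P S : C.Obj → Prop),
    (∀ X, DGThick C S X → P X) → ∀ X : (fullSub C P).Obj, DGThick C S X.1 →
    DGThick (fullSub C P) (fun Y => S Y.1) X

/-! ### L2: the five lemma and devissage -/

/-- The shift of a complex with the sign `e` in the differential: `(A[s])ⁿ = Aⁿ⁺ˢ`. -/
def gshift {k : Type u} [Field k] (A : GC.{u, w} k) (s : ℤ) (e : ℤˣ) : GC.{u, w} k where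
  X n := A.X (n + s)
  d {n m} h := (e : ℤ) • A.d (show n + s + 1 = m + s by omega)
  d_d h₁ h₂ x := by
    change (e : ℤ) • A.d _ ((e : ℤ) • A.d _ x) = 0
    rw [map_zsmul, A.d_d, smul_zero, smul_zero]

/-- A short exact sequence of complexes, split as a sequence of graded vector spaces. -/
structure SES {k : Type u} [Field k] (A : GC.{u, w₁} k) (B : GC.{u, w₂} k) (C : GC.{u, w₃} k) where
  α : GC.Map A B
  β : GC.Map B C
  π : ∀ n, B.X n →ₗ[k] A.X n
  σ : ∀ n, C.X n →ₗ[k] B.X n
  πα : ∀ n x, π n (α.f n x) = x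
  βσ : ∀ n x, β.f n (σ n x) = x
  βα : ∀ n x, β.f n (α.f n x) = 0
  sum : ∀ n x, α.f n (π n x) + σ n (β.f n x) = x

/-- The five lemma. -/
def Five : Prop :=
  ∀ {k : Type u} [Field k] {A : GC.{u, w₁} k} {B : GC.{u, w₂} k} {C : GC.{u, w₃} k}
    {A' : GC.{u, w₄} k} {B' : GC.{u, w₅} k} {C' : GC.{u, w₆} k} (s : SES A B C) (s' : SES A' B' C')
    (a : GC.Map A A') (b : GC.Map B B') (c : GC.Map C C'),
    (∀ n x, b.f n (s.α.f n x) = s'.α.f n (a.f n x)) →
    (∀ n x, c.f n (s.β.f n x) = s'.β.f n (b.f n x)) → a.QI → c.QI → b.QI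

/-- Devissage in the first variable. -/
def DevL : Prop :=
  ∀ {k : Type u} [Field k] {C : DGCat.{u, v, w} k} {D : DGCat.{u, v', w'} k} (F : DGFun C D)
    (S : C.Obj → Prop) (Y : C.Obj), (∀ X, S X → (F.onHom X Y).QI) →
    ∀ X, DGThick C S X → (F.onHom X Y).QI

/-- Devissage in the second variable. -/
def DevR : Prop :=
  ∀ {k : Type u} [Field k] {C : DGCat.{u, v, w} k} {D : DGCat.{u, v', w'} k} (F : DGFun C D)
    (S : C.Obj → Prop) (X : C.Obj), (∀ Y, S Y → (F.onHom X Y).QI) →
    ∀ Y, DGThick C S Y → (F.onHom X Y).QI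

/-- Devissage for acyclicity in the first variable. -/
def DevA : Prop :=
  ∀ {k : Type u} [Field k] {C : DGCat.{u, v, w} k} (S : C.Obj → Prop) (Y : C.Obj),
    (∀ X, S X → (homC C X Y).Acyclic) → ∀ X, DGThick C S X → (homC C X Y).Acyclic

/-! ### L3: the Yoneda embedding -/

variable {k : Type u} [Field k]

/-- The morphism of representable modules given by `f`. -/
def repMap {V : DGCat.{u, v, w} k} {X Y : V.Obj} {n : ℤ} :
    V.Hom X Y n →ₗ[k] ModHom (rep X) (rep Y) n where
  toFun f := mkHom (fun W _ _ h => ULift.moduleEquiv.symm.toLinearMap ∘ₗ V.comp h f ∘ₗ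
      ULift.moduleEquiv.toLinearMap) (by
    intro X' Y' i m l i' l' h₁ h₂ h₃ h₄ x g
    exact ULift.ext _ _ (V.assoc h₃ h₄ h₁ h₂ f x.down g).symm)
  map_add' f g := ap_ext fun W i j h x => ULift.ext _ _ (by
    change V.comp h (f + g) x.down = V.comp h f x.down + V.comp h g x.down
    rw [map_add, LinearMap.add_apply])
  map_smul' c f := ap_ext fun W i j h x => ULift.ext _ _ (by
    change V.comp h (c • f) x.down = c • V.comp h f x.down
    rw [map_smul, LinearMap.smul_apply])

theorem repMap_ap {V : DGCat.{u, v, w} k} {X Y W : V.Obj} {n i j : ℤ} (f : V.Hom X Y n) (h : n + i = j)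
    (x : ((rep X).M W).X i) : (ap (repMap f) h x).down = V.comp h f x.down := rfl

/-- The Yoneda embedding. -/
def yon (V : DGCat.{u, v, w} k) : DGFun V (ModCat V) where
  obj X := rep X
  map := repMap
  map_one X := ap_ext fun W i j h x => ULift.ext _ _ (by
    obtain rfl : i = j := by omega
    exact V.one_comp h x.down)
  map_comp {X Y Z n m l} h f g := ap_ext fun W i j hij x => ULift.ext _ _ (by
    have h1 := congrArg ULift.down (comp_ap h (repMap f) (repMap g) hij
      (show n + (m + i) = j by omega) rfl x)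
    refine Eq.trans ?_ h1.symm
    exact V.assoc h hij rfl (show n + (m + i) = j by omega) f g x.down)
  map_d {X Y n m} h f := ap_ext fun W i j hij x => ULift.ext _ _ (by
    have h1 := congrArg ULift.down (d_ap h (repMap f) hij (show n + i + 1 = j by omega) rfl
      (show n + (i + 1) = j by omega) rfl x)
    refine Eq.trans ?_ h1.symm
    have h2 := V.d_comp (rfl : n + i = n + i) (show n + i + 1 = j by omega) h (rfl : i + 1 = i + 1) hij
      (show n + (i + 1) = j by omega) f x.down
    change V.comp hij (V.d h f) x.down = V.d _ (V.comp rfl f x.down) -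
      n.negOnePow • V.comp _ f (V.d rfl x.down)
    rw [h2, add_sub_cancel_right])

/-- The Yoneda lemma. -/
def Yoneda : Prop :=
  ∀ {k : Type u} [Field k] {V : DGCat.{u, v, w} k} (X : V.Obj) (M : DGMod V) (n : ℤ),
    Function.Bijective (fun φ : ModHom (rep X) M n => ap φ (add_zero n) (ULift.up (V.one X) : ULift _))

/-- Evaluation at the identity is compatible with the differentials. -/
def YonedaD : Prop :=
  ∀ {k : Type u} [Field k] {V : DGCat.{u, v, w} k} (X : V.Obj) (M : DGMod V) {n m : ℤ} (h : n + 1 = m)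
    (φ : ModHom (rep X) M n), ap (dHom h φ) (add_zero m) (ULift.up (V.one X) : ULift _) =
      (M.M X).d h (ap φ (add_zero n) (ULift.up (V.one X) : ULift _))

/-- The Yoneda embedding is quasi-fully faithful (even fully faithful). -/
def YonQFF : Prop :=
  ∀ {k : Type u} [Field k] (V : DGCat.{u, v, w} k) (X Y : V.Obj), ((yon V).onHom X Y).QI

/-! ### L4: shifts, cones and countable sums of modules -/

def ModShift : Prop :=
  ∀ {k : Type u} [Field k] {V : DGCat.{u, v, w} k} (M : (ModCat V).Obj) (n : ℤ),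
    ∃ N : (ModCat V).Obj, IsShift (ModCat V) M N n

def ModCone : Prop :=
  ∀ {k : Type u} [Field k] {V : DGCat.{u, v, w} k} (M N : (ModCat V).Obj) (f : (ModCat V).Hom M N 0),
    (ModCat V).d (zero_add 1) f = 0 → ∃ Z : (ModCat V).Obj, IsCone (ModCat V) f Z

/-- The countable direct sum of copies of a complex. -/
def gsum (A : GC.{u, w} k) : GC.{u, w} k where
  X n := ℕ →₀ A.X n
  d h := Finsupp.mapRange.linearMap (A.d h)
  d_d h₁ h₂ x := Finsupp.ext fun i => A.d_d h₁ h₂ (x i)

/-- The component with index `i` of an element of a countable direct sum. -/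
def gco {A : GC.{u, w} k} {n : ℤ} (x : (gsum A).X n) (i : ℕ) : A.X n := (show ℕ →₀ A.X n from x) i

/-- The countable direct sum of copies of a module. -/
def sumN {V : DGCat.{u, v, w} k} (M : DGMod V) : DGMod V where
  M X := gsum (M.M X)
  act {X Y n m l} h := LinearMap.mk₂ k (fun x f => Finsupp.mapRange.linearMap ((M.act h).flip f) x)
    (fun x y f => map_add _ _ _) (fun c x f => map_smul _ _ _)
    (fun x f g => Finsupp.ext fun i => (M.act h (gco x i)).map_add f g)
    (fun c x f => Finsupp.ext fun i => (M.act h (gco x i)).map_smul c f)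
  act_one h x := Finsupp.ext fun i => M.act_one h (gco x i)
  act_act h₁ h₂ h₃ h₄ x f g := Finsupp.ext fun i => M.act_act h₁ h₂ h₃ h₄ (gco x i) f g
  d_act h hl hn hm h₁ h₂ x f := Finsupp.ext fun i => M.d_act h hl hn hm h₁ h₂ (gco x i) f

/-- The inclusion of the copy with index `i`. -/
def inc {V : DGCat.{u, v, w} k} (M : DGMod V) (i : ℕ) : ModHom M (sumN M) 0 :=
  mkHom (fun X _ _ h => Finsupp.lsingle i ∘ₗ gcast (M.M X) ((zero_add _).symm.trans h)) (by
    intro X Y a m l a' l' h₁ h₂ h₃ h₄ x g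
    obtain rfl : a = a' := by omega
    obtain rfl : l = l' := by omega
    exact (Finsupp.mapRange_single (f := fun y => M.act h₁ y g) (hf := by simp)).symm)

/-- The universal property of the countable sum, and the inclusions are closed. -/
def SumUniv : Prop :=
  ∀ {k : Type u} [Field k] {V : DGCat.{u, v, w} k} (M N : DGMod V),
    (∀ i, dHom (zero_add 1) (inc M i) = 0) ∧
    (∀ (n : ℤ) (φ : ℕ → ModHom M N n), ∃ ψ : ModHom (sumN M) N n, ∀ i,
      compHom (add_zero n) ψ (inc M i) = φ i) ∧
    (∀ (n : ℤ) (ψ ψ' : ModHom (sumN M) N n),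
      (∀ i, compHom (add_zero n) ψ (inc M i) = compHom (add_zero n) ψ' (inc M i)) → ψ = ψ')

/-! ### L5: h-projective modules -/

/-- All complexes `A X` are acyclic. -/
def AcycMod {V : DGCat.{u, v, w} k} (A : DGMod V) : Prop := ∀ X, (A.M X).Acyclic

/-- `P` is h-projective. -/
def HProj {V : DGCat.{u, v, w} k} (P : DGMod V) : Prop :=
  ∀ A : DGMod V, AcycMod A → (homC (ModCat V) P A).Acyclic

/-- The map of complexes given by a closed morphism of degree `0` at the object `X`. -/
def evMap {V : DGCat.{u, v, w} k} {A B : DGMod V} (f : ModHom A B 0) (hf : dHom (zero_add 1) f = 0)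
    (X : V.Obj) : GC.Map (A.M X) (B.M X) where
  f n := ap f (zero_add n)
  comm {n m} h x := by
    have h1 := d_ap (zero_add 1) f (show 1 + n = m by omega) h (zero_add n) (zero_add m) h x
    rw [hf, ap_zero, Int.negOnePow_zero, one_smul] at h1
    exact (sub_eq_zero.mp h1.symm).symm

def HProjThick : Prop :=
  ∀ {k : Type u} [Field k] {V : DGCat.{u, v, w} k} (P : (ModCat V).Obj),
    DGThick (ModCat V) IsRep P → HProj (V := V) P

def HProjSum : Prop :=
  ∀ {k : Type u} [Field k] {V : DGCat.{u, v, w} k} (P : DGMod V), HProj P → HProj (sumN P)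

def HProjCone : Prop :=
  ∀ {k : Type u} [Field k] {V : DGCat.{u, v, w} k} (P Q Z : (ModCat V).Obj) (f : (ModCat V).Hom P Q 0),
    (ModCat V).d (zero_add 1) f = 0 → IsCone (ModCat V) f Z → HProj (V := V) P → HProj (V := V) Q →
    HProj (V := V) Z

/-- A pointwise quasi-isomorphism of h-projective modules is a homotopy equivalence. -/
def Whitehead : Prop :=
  ∀ {k : Type u} [Field k] {V : DGCat.{u, v, w} k} (P Q : (ModCat V).Obj) (f : (ModCat V).Hom P Q 0)
    (hf : (ModCat V).d (zero_add 1) f = 0), HProj (V := V) P → HProj (V := V) Q →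
    (∀ X, (evMap (V := V) f hf X).QI) →
    ∃ (g : (ModCat V).Hom Q P 0) (s : (ModCat V).Hom P P (-1)) (t : (ModCat V).Hom Q Q (-1)),
      (ModCat V).d (zero_add 1) g = 0 ∧
      (ModCat V).comp (zero_add 0) g f = (ModCat V).one P + (ModCat V).d (neg_add_cancel 1) s ∧
      (ModCat V).comp (zero_add 0) f g = (ModCat V).one Q + (ModCat V).d (neg_add_cancel 1) t

/-! ### L6: homotopy idempotents split -/

/-- All homotopy idempotents of `X` split in the homotopy category of `C`. -/
def SplitsAt (C : DGCat.{u, v, w} k) (X : C.Obj) : Prop :=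
  ∀ (e : C.Hom X X 0) (h : C.Hom X X (-1)), C.d (zero_add 1) e = 0 →
    C.comp (zero_add 0) e e = e + C.d (neg_add_cancel 1) h →
    ∃ (N : C.Obj) (r : C.Hom X N 0) (s : C.Hom N X 0) (a : C.Hom N N (-1)) (b : C.Hom X X (-1)),
      C.d (zero_add 1) r = 0 ∧ C.d (zero_add 1) s = 0 ∧
      C.comp (zero_add 0) r s = C.one N + C.d (neg_add_cancel 1) a ∧
      C.comp (zero_add 0) s r = e + C.d (neg_add_cancel 1) b

def HProjSplits : Prop :=
  ∀ {k : Type u} [Field k] {V : DGCat.{u, v, w} k} (M : (ModCat V).Obj), HProj (V := V) M →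
    SplitsAt (ModCat V) M

/-- `Perf V` has shifts, cones and split idempotents. -/
def PerfClosed : Prop :=
  ∀ {k : Type u} [Field k] (V : DGCat.{u, v, w} k),
    (∀ (X : (Perf V).Obj) (n : ℤ), ∃ Y, IsShift (Perf V) X Y n) ∧
    (∀ (X Y : (Perf V).Obj) (f : (Perf V).Hom X Y 0), (Perf V).d (zero_add 1) f = 0 →
      ∃ Z, IsCone (Perf V) f Z) ∧
    ∀ X : (Perf V).Obj, SplitsAt (Perf V) X

/-! ### L7: essential surjectivity -/

/-- A closed morphism which induces quasi-isomorphisms by composition is a homotopy equivalence. -/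
def HEquivOfQI : Prop :=
  ∀ {k : Type u} [Field k] {C : DGCat.{u, v, w} k} {X Y : C.Obj} (c : C.Hom X Y 0),
    C.d (zero_add 1) c = 0 →
    (∀ W : C.Obj, ∃ m : GC.Map (homC C W X) (homC C W Y), m.QI ∧
      ∀ (n : ℤ) (x : C.Hom W X n), m.f n x = C.comp (zero_add n) c x) → HEquiv C X Y

/-- Cones of homotopy equivalent morphisms are homotopy equivalent. -/
def ConeHEquiv : Prop :=
  ∀ {k : Type u} [Field k] {C : DGCat.{u, v, w} k} {X Y X' Y' Z Z' : C.Obj} (f : C.Hom X Y 0)
    (f' : C.Hom X' Y' 0) (a : C.Hom X X' 0) (b : C.Hom Y Y' 0) (h : C.Hom X Y' (-1)),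
    C.d (zero_add 1) f = 0 → C.d (zero_add 1) f' = 0 → IsCone C f Z → IsCone C f' Z' →
    (∃ (a' : C.Hom X' X 0) (s : C.Hom X X (-1)) (t : C.Hom X' X' (-1)), C.d (zero_add 1) a = 0 ∧
      C.d (zero_add 1) a' = 0 ∧ C.comp (zero_add 0) a' a = C.one X + C.d (neg_add_cancel 1) s ∧
      C.comp (zero_add 0) a a' = C.one X' + C.d (neg_add_cancel 1) t) →
    (∃ (b' : C.Hom Y' Y 0) (s : C.Hom Y Y (-1)) (t : C.Hom Y' Y' (-1)), C.d (zero_add 1) b = 0 ∧
      C.d (zero_add 1) b' = 0 ∧ C.comp (zero_add 0) b' b = C.one Y + C.d (neg_add_cancel 1) s ∧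
      C.comp (zero_add 0) b b' = C.one Y' + C.d (neg_add_cancel 1) t) →
    C.comp (zero_add 0) b f = C.comp (zero_add 0) f' a + C.d (neg_add_cancel 1) h →
    HEquiv C Z Z'

/-- The essential image of a quasi-fully faithful functor on a category with shifts, cones and split
idempotents is closed under shifts, cones and retracts. -/
def EssSurj : Prop :=
  ∀ {k : Type u} [Field k] {A : DGCat.{u, v, w} k} {B : DGCat.{u, v', w'} k} (F : DGFun A B),
    (∀ X Y, (F.onHom X Y).QI) → (∀ (X : A.Obj) (n : ℤ), ∃ Y, IsShift A X Y n) →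
    (∀ (X Y : A.Obj) (f : A.Hom X Y 0), A.d (zero_add 1) f = 0 → ∃ Z, IsCone A f Z) →
    (∀ X : A.Obj, SplitsAt A X) → ∀ (S : B.Obj → Prop), (∀ Y, S Y → ∃ X, HEquiv B (F.obj X) Y) →
    ∀ Y, DGThick B S Y → ∃ X, HEquiv B (F.obj X) Y

/-! ### L8: extension of scalars -/

/-- Extension of scalars along a DG functor `F : V → W` whose maps on morphisms are quasi-isomorphisms:
a DG functor from modules over `V` to modules over `W` which sends the module represented by `X` to a
module isomorphic to the one represented by `F X`, and which is quasi-fully faithful on representable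
modules. -/
def Extension : Prop :=
  ∀ {k : Type u} [Field k] {V W : DGCat.{u, v, w} k} (F : DGFun V W), (∀ X Y, (F.onHom X Y).QI) →
    ∃ G : DGFun (ModCat V) (ModCat W), (∀ X : V.Obj, HEquiv (ModCat W) (G.obj (rep X)) (rep (F.obj X))) ∧
      ∀ X Y : V.Obj, (G.onHom (rep X) (rep Y)).QI

/-! ### L9: the theorem -/

/-- A quasi-fully faithful DG functor with generating image induces a quasi-equivalence of the categories
of perfect modules. -/
def PerfEquiv : Prop :=
  ∀ {k : Type u} [Field k] {V W : DGCat.{u, v, w} k} (F : DGFun V W), (∀ X Y, (F.onHom X Y).QI) →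
    (∀ Y : W.Obj, DGThick W (fun Z => ∃ X, Z = F.obj X) Y) →
    ∃ G : DGFun (Perf V) (Perf W), G.IsQuasiEquiv

/-- Perfect modules over a DG category generated by an object `E` whose DG algebra of endomorphisms is
quasi-isomorphic to `R` are perfect modules over `R`. -/
def PerfMain : Prop :=
  ∀ {k : Type u} [Field k] (C : DGCat.{u, v, w} k) (E : C.Obj) (R : DGA.{u, w} k),
    (∀ X : C.Obj, DGThick C (fun Z => Z = E) X) → DGA.QEquiv (C.End E) R →
    QuasiEquivalent (Perf C) (Perf (oneObj.{u, v, w} R))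

end

end Pool.Agent.Helper49.RZ
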