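import Pool.Agent.Helper49.RZ.Ext5
import Pool.Agent.Helper64.RZL.Final
import Pool.Agent.Helper61.RZL.EssSurj
import Pool.Agent.Helper61.RZL.HEq
import Pool.Agent.Helper61.RZL.PerfClosed
import Pool.Agent.Helper68.RZL.Split
import Pool.Agent.Helper7.RZL.ModOps
import Pool.Agent.Helper9.RZL.Five
import Pool.Agent.Helper1.RZL.HProj

/-!
# Project RZ (MP_77656e_ag), literal layer: the theorems `perfEquiv` and `perfMain` without hypotheses
-/

set_option autoImplicit false

namespace Pool.Agent.Helper49.RZ

open Pool.Agent.Helper17.RZ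

universe u v w

theorem hProjThick : HProjThick.{u, v, w} :=
  Pool.Agent.Helper1.RZL.hProjThick Pool.Agent.Helper9.RZL.devA Pool.Agent.Helper64.RZL.yoneda
    Pool.Agent.Helper64.RZL.yonedaD

theorem hProjCone : HProjCone.{u, v, w} :=
  Pool.Agent.Helper1.RZL.hProjCone Pool.Agent.Helper9.RZL.devA

theorem hProjSplits : HProjSplits.{u, v, w} :=
  Pool.Agent.Helper68.RZL.hProjSplits Pool.Agent.Helper7.RZL.sumUniv Pool.Agent.Helper7.RZL.modCone
    (Pool.Agent.Helper1.RZL.hProjSum Pool.Agent.Helper7.RZL.sumUniv) hProjCone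
    (Pool.Agent.Helper1.RZL.whitehead Pool.Agent.Helper7.RZL.modCone hProjCone)

/-- `Perf V` has shifts, cones and split homotopy idempotents. -/
theorem perfClosed : PerfClosed.{u, v, w} :=
  Pool.Agent.Helper61.RZL.perfClosed Pool.Agent.Helper7.RZL.modShift Pool.Agent.Helper7.RZL.modCone
    hProjThick hProjSplits

/-- A quasi-fully faithful DG functor with generating image induces a quasi-equivalence of the categories
of perfect modules. -/
theorem perfEquiv : PerfEquiv.{u, v, w} :=
  Pool.Agent.Helper64.RZL.perfEquiv Pool.Agent.Helper9.RZL.devL Pool.Agent.Helper9.RZL.devR perfClosed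
    (Pool.Agent.Helper61.RZL.essSurj (Pool.Agent.Helper61.RZL.coneHEquiv Pool.Agent.Helper9.RZL.five))
    extension

/-- Perfect modules over a DG category generated by an object `E` whose DG algebra of endomorphisms is
quasi-isomorphic to `R` are perfect modules over `R`. -/
theorem perfMain : PerfMain.{u, v, w} := Pool.Agent.Helper64.RZL.perfMain perfEquiv

end Pool.Agent.Helper49.RZ
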