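import Pool.Agent.Helper49.RZ.DgFun

/-!
# Project RZ (MP_77656e_ag): the DG category of right DG modules over a DG category, perfect modules
-/

set_option autoImplicit false

namespace Pool.Agent.Helper49.RZ

open Pool.Agent.Helper17.RZ

universe u v w

noncomputable section

variable {k : Type u} [Field k]

/-- Transport between the terms of a complex along an equality of degrees. -/
def gcast (A : GC.{u, w} k) {i j : ℤ} (h : i = j) : A.X i →ₗ[k] A.X j := h ▸ LinearMap.id

theorem gcast_self (A : GC.{u, w} k) {i : ℤ} (h : i = i) (x : A.X i) : gcast A h x = x := rfl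

/-- Linear maps commute with signs. -/
theorem lin_sign {M N : Type*} [AddCommGroup M] [AddCommGroup N] [Module k M] [Module k N]
    (f : M →ₗ[k] N) (e : ℤˣ) (x : M) : f (e • x) = e • f x := by
  rw [Units.smul_def, Units.smul_def, map_zsmul]

/-- A right DG module over the DG category `V`: a complex `M X` for each object `X` and an action
`M Y ⊗ Hom X Y → M X`. -/
structure DGMod (V : DGCat.{u, v, w} k) where
  M : V.Obj → GC.{u, max v w} k
  act : ∀ {X Y : V.Obj} {n m l : ℤ}, n + m = l → (M Y).X n →ₗ[k] V.Hom X Y m →ₗ[k] (M X).X l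
  act_one : ∀ {X : V.Obj} {n : ℤ} (h : n + 0 = n) (x : (M X).X n), act h x (V.one X) = x
  act_act : ∀ {X Y Z : V.Obj} {a b c ab bc l : ℤ} (h₁ : a + b = ab) (h₂ : ab + c = l) (h₃ : b + c = bc)
    (h₄ : a + bc = l) (x : (M Z).X a) (f : V.Hom Y Z b) (g : V.Hom X Y c),
    act h₂ (act h₁ x f) g = act h₄ x (V.comp h₃ f g)
  d_act : ∀ {X Y : V.Obj} {n m l n' m' l' : ℤ} (h : n + m = l) (hl : l + 1 = l') (hn : n + 1 = n')
    (hm : m + 1 = m') (h₁ : n' + m = l') (h₂ : n + m' = l') (x : (M Y).X n) (f : V.Hom X Y m),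
    (M X).d hl (act h x f) = act h₁ ((M Y).d hn x) f + n.negOnePow • act h₂ x (V.d hm f)

/-- The pairs `(i, j)` of degrees with `n + i = j`. -/
abbrev Ix (n : ℤ) : Type := {p : ℤ × ℤ // n + p.1 = p.2}

variable {V : DGCat.{u, v, w} k}

/-- Families of linear maps `(A X)ⁱ → (B X)ʲ`, `n + i = j`. -/
abbrev Raw (A B : DGMod V) (n : ℤ) : Type (max v w) :=
  ∀ (X : V.Obj) (p : Ix n), (A.M X).X p.1.1 →ₗ[k] (B.M X).X p.1.2

/-- The map `(A X)ⁱ → (B X)ʲ` of a family of degree `n`, `n + i = j`. -/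
def Raw.ap {A B : DGMod V} {n : ℤ} (φ : Raw A B n) {X : V.Obj} {i j : ℤ} (h : n + i = j) :
    (A.M X).X i →ₗ[k] (B.M X).X j := φ X ⟨(i, j), h⟩

/-- The morphisms of degree `n` of right DG modules: the families of degree `n` compatible with the
action of `V`. -/
def ModHom (A B : DGMod V) (n : ℤ) : Submodule k (Raw A B n) where
  carrier := {φ | ∀ {X Y : V.Obj} {i m l i' l' : ℤ} (h₁ : i + m = l) (h₂ : n + l = l') (h₃ : n + i = i')
    (h₄ : i' + m = l') (x : (A.M Y).X i) (f : V.Hom X Y m),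
    φ.ap h₂ (A.act h₁ x f) = B.act h₄ (φ.ap h₃ x) f}
  add_mem' := by
    intro a b ha hb X Y i m l i' l' h₁ h₂ h₃ h₄ x f
    change a.ap h₂ _ + b.ap h₂ _ = B.act h₄ (a.ap h₃ x + b.ap h₃ x) f
    rw [ha h₁ h₂ h₃ h₄, hb h₁ h₂ h₃ h₄, map_add, LinearMap.add_apply]
  zero_mem' := by
    intro X Y i m l i' l' h₁ h₂ h₃ h₄ x f
    change (0 : (B.M X).X l') = B.act h₄ 0 f
    rw [map_zero, LinearMap.zero_apply]
  smul_mem' := by
    intro c a ha X Y i m l i' l' h₁ h₂ h₃ h₄ x f
    change c • a.ap h₂ _ = B.act h₄ (c • a.ap h₃ x) f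
    rw [ha h₁ h₂ h₃ h₄, map_smul, LinearMap.smul_apply]

/-- The map `(A X)ⁱ → (B X)ʲ` of a morphism of degree `n`, `n + i = j`. -/
def ap {A B : DGMod V} {n : ℤ} (φ : ModHom A B n) {X : V.Obj} {i j : ℤ} (h : n + i = j) :
    (A.M X).X i →ₗ[k] (B.M X).X j := φ.1.ap h

theorem ap_nat {A B : DGMod V} {n : ℤ} (φ : ModHom A B n) {X Y : V.Obj} {i m l i' l' : ℤ}
    (h₁ : i + m = l) (h₂ : n + l = l') (h₃ : n + i = i') (h₄ : i' + m = l') (x : (A.M Y).X i)
    (f : V.Hom X Y m) : ap φ h₂ (A.act h₁ x f) = B.act h₄ (ap φ h₃ x) f :=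
  φ.2 h₁ h₂ h₃ h₄ x f

theorem ap_ext {A B : DGMod V} {n : ℤ} {φ ψ : ModHom A B n}
    (H : ∀ (X : V.Obj) (i j : ℤ) (h : n + i = j) (x : (A.M X).X i), ap φ h x = ap ψ h x) : φ = ψ := by
  refine Subtype.ext (funext fun X => funext fun p => ?_)
  obtain ⟨⟨i, j⟩, h⟩ := p
  exact LinearMap.ext fun x => H X i j h x

theorem ap_add {A B : DGMod V} {n : ℤ} (φ ψ : ModHom A B n) {X : V.Obj} {i j : ℤ} (h : n + i = j)
    (x : (A.M X).X i) : ap (φ + ψ) h x = ap φ h x + ap ψ h x := rfl

theorem ap_sub {A B : DGMod V} {n : ℤ} (φ ψ : ModHom A B n) {X : V.Obj} {i j : ℤ} (h : n + i = j)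
    (x : (A.M X).X i) : ap (φ - ψ) h x = ap φ h x - ap ψ h x := rfl

theorem ap_neg {A B : DGMod V} {n : ℤ} (φ : ModHom A B n) {X : V.Obj} {i j : ℤ} (h : n + i = j)
    (x : (A.M X).X i) : ap (-φ) h x = - ap φ h x := rfl

theorem ap_zero {A B : DGMod V} {n : ℤ} {X : V.Obj} {i j : ℤ} (h : n + i = j)
    (x : (A.M X).X i) : ap (0 : ModHom A B n) h x = 0 := rfl

theorem ap_smul {A B : DGMod V} {n : ℤ} (c : k) (φ : ModHom A B n) {X : V.Obj} {i j : ℤ} (h : n + i = j)
    (x : (A.M X).X i) : ap (c • φ) h x = c • ap φ h x := rfl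

theorem ap_sign {A B : DGMod V} {n : ℤ} (e : ℤˣ) (φ : ModHom A B n) {X : V.Obj} {i j : ℤ} (h : n + i = j)
    (x : (A.M X).X i) : ap (e • φ) h x = e • ap φ h x := rfl

/-- Changing the target degree along an equality. -/
theorem ap_cast {A B : DGMod V} {n : ℤ} (φ : ModHom A B n) {X : V.Obj} {i j j' : ℤ} (h : n + i = j)
    (h' : n + i = j') (hj : j' = j) (x : (A.M X).X i) : ap φ h x = gcast _ hj (ap φ h' x) := by
  subst hj; rfl

/-- Constructor for morphisms of DG modules. -/
def mkHom {A B : DGMod V} {n : ℤ}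
    (f : ∀ (X : V.Obj) (i j : ℤ), n + i = j → ((A.M X).X i →ₗ[k] (B.M X).X j))
    (hf : ∀ {X Y : V.Obj} {i m l i' l' : ℤ} (h₁ : i + m = l) (h₂ : n + l = l') (h₃ : n + i = i')
      (h₄ : i' + m = l') (x : (A.M Y).X i) (g : V.Hom X Y m),
      f X l l' h₂ (A.act h₁ x g) = B.act h₄ (f Y i i' h₃ x) g) : ModHom A B n :=
  ⟨fun X p => f X p.1.1 p.1.2 p.2, fun h₁ h₂ h₃ h₄ x g => hf h₁ h₂ h₃ h₄ x g⟩

theorem mkHom_ap {A B : DGMod V} {n : ℤ}
    (f : ∀ (X : V.Obj) (i j : ℤ), n + i = j → ((A.M X).X i →ₗ[k] (B.M X).X j)) (hf) {X : V.Obj} {i j : ℤ}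
    (h : n + i = j) (x : (A.M X).X i) : ap (mkHom f hf : ModHom A B n) h x = f X i j h x := rfl

/-- The identity. -/
def oneHom (A : DGMod V) : ModHom A A 0 :=
  mkHom (fun X _ _ h => gcast (A.M X) ((zero_add _).symm.trans h)) (by
    intro X Y i m l i' l' h₁ h₂ h₃ h₄ x f
    obtain rfl : i = i' := by omega
    obtain rfl : l = l' := by omega
    rfl)

theorem oneHom_ap (A : DGMod V) {X : V.Obj} {i : ℤ} (h : 0 + i = i) (x : (A.M X).X i) :
    ap (oneHom A) h x = x := rfl

/-- The composition. -/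
def compHom {A B C : DGMod V} {n m l : ℤ} (h : n + m = l) :
    ModHom B C n →ₗ[k] ModHom A B m →ₗ[k] ModHom A C l :=
  LinearMap.mk₂ k (fun φ ψ => mkHom
      (fun X i j hij => ap φ (show n + (m + i) = j by omega) ∘ₗ ap ψ (rfl : m + i = m + i)) (by
        intro X Y i r s i' s' h₁ h₂ h₃ h₄ x f
        rw [LinearMap.comp_apply, LinearMap.comp_apply]
        rw [ap_nat ψ h₁ rfl rfl (show m + i + r = m + s by omega)]
        exact ap_nat φ _ _ _ _ _ _))
    (fun _ _ _ => rfl) (fun _ _ _ => rfl)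
    (fun φ ψ ψ' => ap_ext fun X i j hij x => (ap φ (show n + (m + i) = j by omega)).map_add
      (ap ψ (rfl : m + i = m + i) x) (ap ψ' (rfl : m + i = m + i) x))
    (fun c φ ψ => ap_ext fun X i j hij x => (ap φ (show n + (m + i) = j by omega)).map_smul c
      (ap ψ (rfl : m + i = m + i) x))

theorem comp_ap {A B C : DGMod V} {n m l : ℤ} (h : n + m = l) (φ : ModHom B C n) (ψ : ModHom A B m)
    {X : V.Obj} {i j s : ℤ} (hl : l + i = s) (h₁ : n + j = s) (h₂ : m + i = j) (x : (A.M X).X i) :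
    ap (compHom h φ ψ) hl x = ap φ h₁ (ap ψ h₂ x) := by
  subst h₂; rfl

/-- The differential. -/
def dHom {A B : DGMod V} {n m : ℤ} (h : n + 1 = m) : ModHom A B n →ₗ[k] ModHom A B m where
  toFun φ := mkHom
      (fun X i j hij => (B.M X).d (show n + i + 1 = j by omega) ∘ₗ ap φ (rfl : n + i = n + i) -
        n.negOnePow • (ap φ (show n + (i + 1) = j by omega) ∘ₗ (A.M X).d (rfl : i + 1 = i + 1))) (by
        intro X Y i r s i' s' h₁ h₂ h₃ h₄ x f
        obtain rfl : i' = n + i + 1 := by omega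
        simp only [LinearMap.sub_apply, LinearMap.comp_apply, LinearMap.smul_apply]
        rw [ap_nat φ h₁ rfl rfl (show n + i + r = n + s by omega),
          B.d_act _ _ (rfl : n + i + 1 = n + i + 1) (rfl : r + 1 = r + 1) (by omega)
            (show n + i + (r + 1) = s' by omega),
          A.d_act h₁ rfl (rfl : i + 1 = i + 1) (rfl : r + 1 = r + 1) (by omega) (by omega), map_add,
          lin_sign,
          ap_nat φ (show i + 1 + r = s + 1 by omega) _ (show n + (i + 1) = n + i + 1 by omega) (by omega),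
          ap_nat φ (show i + (r + 1) = s + 1 by omega) _ (rfl : n + i = n + i) (by omega),
          map_sub, lin_sign, LinearMap.sub_apply]
        have e1 : ∀ (e : ℤˣ) (g : V.Hom X Y r →ₗ[k] (B.M X).X s'), (e • g) f = e • g f := fun e g => rfl
        rw [e1, smul_add, smul_smul, ← Int.negOnePow_add]
        abel)
  map_add' φ ψ := ap_ext fun X i j hij x => by
    change (B.M X).d _ ((ap φ _ x) + (ap ψ _ x)) - n.negOnePow • ((ap φ _ _) + (ap ψ _ _)) =
      ((B.M X).d _ (ap φ _ x) - n.negOnePow • (ap φ _ _)) + ((B.M X).d _ (ap ψ _ x) - n.negOnePow • (ap ψ _ _))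
    rw [map_add, smul_add]; abel
  map_smul' c φ := ap_ext fun X i j hij x => by
    change (B.M X).d _ (c • (ap φ _ x)) - n.negOnePow • (c • ap φ _ _) =
      c • ((B.M X).d _ (ap φ _ x) - n.negOnePow • (ap φ _ _))
    rw [map_smul, smul_sub, smul_comm]

theorem d_ap {A B : DGMod V} {n m : ℤ} (h : n + 1 = m) (φ : ModHom A B n) {X : V.Obj} {i j i₁ j₁ : ℤ}
    (hij : m + i = j) (h₁ : j₁ + 1 = j) (h₂ : n + i = j₁) (h₃ : n + i₁ = j) (h₄ : i + 1 = i₁)
    (x : (A.M X).X i) :
    ap (dHom h φ) hij x = (B.M X).d h₁ (ap φ h₂ x) - n.negOnePow • ap φ h₃ ((A.M X).d h₄ x) := by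
  subst h₂ h₄; rfl

/-- The DG category of right DG modules over `V`. -/
def ModCat (V : DGCat.{u, v, w} k) : DGCat k where
  Obj := DGMod V
  Hom A B n := ModHom A B n
  one A := oneHom A
  comp h := compHom h
  d h := dHom h
  one_comp {A B n} h f := ap_ext fun X i j hij x => by
    rw [comp_ap h _ _ hij (zero_add j) hij]; rfl
  comp_one {A B n} h f := ap_ext fun X i j hij x => by
    rw [comp_ap h _ _ hij hij (zero_add i)]; rfl
  assoc {W X Y Z a b c ab bc l} h₁ h₂ h₃ h₄ f g h := ap_ext fun P i j hij x => by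
    rw [comp_ap h₂ _ _ hij (show ab + (c + i) = j by omega) rfl,
      comp_ap h₁ _ _ _ (show a + (bc + i) = j by omega) (show b + (c + i) = bc + i by omega),
      comp_ap h₄ _ _ hij (show a + (bc + i) = j by omega) rfl,
      comp_ap h₃ _ _ _ (show b + (c + i) = bc + i by omega) rfl]
  d_d {X Y n m l} h₁ h₂ f := ap_ext fun P i j hij x => by
    rw [ap_zero, d_ap h₂ _ hij (show m + i + 1 = j by omega) rfl (show m + (i + 1) = j by omega) rfl,
      d_ap h₁ f _ (show n + i + 1 = m + i by omega) rfl (show n + (i + 1) = m + i by omega) rfl,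
      d_ap h₁ f _ (show m + i + 1 = j by omega) (show n + (i + 1) = m + i by omega)
        (show n + (i + 1 + 1) = j by omega) rfl,
      map_sub, (Y.M P).d_d, (X.M P).d_d, map_zero, smul_zero, sub_zero, zero_sub, lin_sign,
      show m.negOnePow = - n.negOnePow by rw [← h₁, Int.negOnePow_succ], Units.neg_smul, sub_neg_eq_add,
      neg_add_cancel]
  d_comp {X Y Z n m l n' m' l'} h hl hn hm h₁ h₂ f g := ap_ext fun P i j hij x => by
    rw [ap_add, ap_sign, d_ap hl _ hij (show l + i + 1 = j by omega) rfl (show l + (i + 1) = j by omega) rfl,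
      comp_ap h f g _ (show n + (m + i) = l + i by omega) rfl,
      comp_ap h f g _ (show n + (m' + i) = j by omega) (show m + (i + 1) = m' + i by omega),
      comp_ap h₁ _ g _ (show n' + (m + i) = j by omega) rfl,
      comp_ap h₂ f _ _ (show n + (m' + i) = j by omega) rfl,
      d_ap hn f _ (show l + i + 1 = j by omega) (show n + (m + i) = l + i by omega)
        (show n + (m' + i) = j by omega) (show m + i + 1 = m' + i by omega),
      d_ap hm g _ (show m + i + 1 = m' + i by omega) rfl (show m + (i + 1) = m' + i by omega) rfl,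
      map_sub, lin_sign, smul_sub, smul_smul, ← Int.negOnePow_add, h]
    abel

/-- The representable module `Hom(-, X)` (lifted to the universe of all modules). -/
def rep {V : DGCat.{u, v, w} k} (X : V.Obj) : DGMod V where
  M Y :=
    { X := fun n => ULift.{v} (V.Hom Y X n)
      d := fun h => ULift.moduleEquiv.symm.toLinearMap ∘ₗ V.d h ∘ₗ ULift.moduleEquiv.toLinearMap
      d_d := fun h₁ h₂ x => ULift.ext _ _ (V.d_d h₁ h₂ x.down) }
  act h := LinearMap.mk₂ k (fun x f => ULift.up (V.comp h x.down f))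
    (fun x y f => ULift.ext _ _ (by
      change V.comp h (x.down + y.down) f = V.comp h x.down f + V.comp h y.down f
      rw [map_add, LinearMap.add_apply]))
    (fun c x f => ULift.ext _ _ (by
      change V.comp h (c • x.down) f = c • V.comp h x.down f
      rw [map_smul, LinearMap.smul_apply]))
    (fun x f g => ULift.ext _ _ (map_add _ _ _))
    (fun c x f => ULift.ext _ _ (map_smul _ _ _))
  act_one h x := ULift.ext _ _ (V.comp_one h x.down)
  act_act h₁ h₂ h₃ h₄ x f g := ULift.ext _ _ (V.assoc h₁ h₂ h₃ h₄ x.down f g)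
  d_act h hl hn hm h₁ h₂ x f := ULift.ext _ _ (V.d_comp h hl hn hm h₁ h₂ x.down f)

/-- The class of representable modules. -/
def IsRep {V : DGCat.{u, v, w} k} (P : (ModCat V).Obj) : Prop := ∃ X : V.Obj, P = rep X

/-- `Perf V`: the DG category of perfect right DG modules over `V`: the full DG subcategory of the DG
category of all modules on the thick closure of the representable modules. -/
def Perf (V : DGCat.{u, v, w} k) : DGCat k := fullSub (ModCat V) (DGThick (ModCat V) IsRep)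

/-- A DG algebra as a DG category with one object. -/
def oneObj (R : DGA.{u, w} k) : DGCat.{u, v, w} k where
  Obj := PUnit.{v + 1}
  Hom _ _ n := R.R n
  one _ := R.one
  comp h := R.mul h
  d h := R.d h
  one_comp h f := R.one_mul h f
  comp_one h f := R.mul_one h f
  assoc h₁ h₂ h₃ h₄ f g h := R.assoc h₁ h₂ h₃ h₄ f g h
  d_d h₁ h₂ f := R.d_d h₁ h₂ f
  d_comp h hl hn hm h₁ h₂ f g := R.d_mul h hl hn hm h₁ h₂ f g

end

end Pool.Agent.Helper49.RZ
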