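import Pool.Agent.Helper17.RZ.Dg

/-!
# Project RZ (MP_77656e_ag): DG functors, quasi-equivalences, cones, thick closures

All notions are for the DG categories of `Pool.Agent.Helper17.RZ.Dg`.
-/

set_option autoImplicit false

namespace Pool.Agent.Helper49.RZ

open Pool.Agent.Helper17.RZ

universe u v w v' w' w₁ w₂ w₃

variable {k : Type u} [Field k]

/-- A cochain complex of vector spaces over `k`. -/
structure GC (k : Type u) [Field k] where
  X : ℤ → Type w
  [acg : ∀ n, AddCommGroup (X n)]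
  [mod : ∀ n, Module k (X n)]
  d : ∀ {n m : ℤ}, n + 1 = m → X n →ₗ[k] X m
  d_d : ∀ {n m l : ℤ} (h₁ : n + 1 = m) (h₂ : m + 1 = l) (x : X n), d h₂ (d h₁ x) = 0

attribute [instance] GC.acg GC.mod

/-- A morphism of complexes. -/
structure GC.Map (A : GC.{u, w₁} k) (B : GC.{u, w₂} k) where
  f : ∀ n, A.X n →ₗ[k] B.X n
  comm : ∀ {n m : ℤ} (h : n + 1 = m) (x : A.X n), f m (A.d h x) = B.d h (f n x)

/-- A morphism of complexes is a quasi-isomorphism: it is injective and surjective on cohomology. -/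
structure GC.Map.QI {A : GC.{u, w₁} k} {B : GC.{u, w₂} k} (F : GC.Map A B) : Prop where
  inj : ∀ {l n m : ℤ} (h₁ : l + 1 = n) (h₂ : n + 1 = m) (x : A.X n) (y : B.X l),
    A.d h₂ x = 0 → F.f n x = B.d h₁ y → ∃ z : A.X l, x = A.d h₁ z
  surj : ∀ {l n m : ℤ} (h₁ : l + 1 = n) (h₂ : n + 1 = m) (y : B.X n), B.d h₂ y = 0 →
    ∃ (x : A.X n) (z : B.X l), A.d h₂ x = 0 ∧ y = F.f n x + B.d h₁ z

/-- A complex is acyclic: every closed element is exact. -/
def GC.Acyclic (A : GC.{u, w} k) : Prop :=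
  ∀ {l n m : ℤ} (h₁ : l + 1 = n) (h₂ : n + 1 = m) (x : A.X n), A.d h₂ x = 0 → ∃ z : A.X l, x = A.d h₁ z

/-- The complex of morphisms from `X` to `Y`. -/
def homC (C : DGCat.{u, v, w} k) (X Y : C.Obj) : GC.{u, w} k where
  X n := C.Hom X Y n
  d h := C.d h
  d_d h₁ h₂ x := C.d_d h₁ h₂ x

/-- A DG functor. -/
structure DGFun (C : DGCat.{u, v, w} k) (D : DGCat.{u, v', w'} k) where
  obj : C.Obj → D.Obj
  map : ∀ {X Y : C.Obj} {n : ℤ}, C.Hom X Y n →ₗ[k] D.Hom (obj X) (obj Y) n
  map_one : ∀ X : C.Obj, map (C.one X) = D.one (obj X)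
  map_comp : ∀ {X Y Z : C.Obj} {n m l : ℤ} (h : n + m = l) (f : C.Hom Y Z n) (g : C.Hom X Y m),
    map (C.comp h f g) = D.comp h (map f) (map g)
  map_d : ∀ {X Y : C.Obj} {n m : ℤ} (h : n + 1 = m) (f : C.Hom X Y n), map (C.d h f) = D.d h (map f)

/-- The identity functor. -/
def DGFun.id (C : DGCat.{u, v, w} k) : DGFun C C where
  obj X := X
  map := LinearMap.id
  map_one _ := rfl
  map_comp _ _ _ := rfl
  map_d _ _ := rfl

/-- The map of a DG functor on complexes of morphisms. -/
def DGFun.onHom {C : DGCat.{u, v, w} k} {D : DGCat.{u, v', w'} k} (F : DGFun C D) (X Y : C.Obj) :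
    GC.Map (homC C X Y) (homC D (F.obj X) (F.obj Y)) where
  f _ := F.map
  comm h x := F.map_d h x

/-- `X` and `Y` are homotopy equivalent: they are isomorphic in the homotopy category `H⁰(C)`. -/
def HEquiv (C : DGCat.{u, v, w} k) (X Y : C.Obj) : Prop :=
  ∃ (f : C.Hom X Y 0) (g : C.Hom Y X 0) (s : C.Hom X X (-1)) (t : C.Hom Y Y (-1)),
    C.d (zero_add 1) f = 0 ∧ C.d (zero_add 1) g = 0 ∧
    C.comp (zero_add 0) g f = C.one X + C.d (neg_add_cancel 1) s ∧
    C.comp (zero_add 0) f g = C.one Y + C.d (neg_add_cancel 1) t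

/-- A quasi-equivalence of DG categories: a DG functor which induces quasi-isomorphisms of the complexes
of morphisms and an essentially surjective functor of homotopy categories. -/
structure DGFun.IsQuasiEquiv {C : DGCat.{u, v, w} k} {D : DGCat.{u, v', w'} k} (F : DGFun C D) : Prop where
  qff : ∀ X Y : C.Obj, (F.onHom X Y).QI
  surj : ∀ Y : D.Obj, ∃ X : C.Obj, HEquiv D (F.obj X) Y

/-- Two DG categories are quasi-equivalent: they are joined by a chain of quasi-equivalences. -/
inductive QuasiEquivalent : DGCat.{u, v, w} k → DGCat.{u, v, w} k → Prop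
  | refl (A : DGCat.{u, v, w} k) : QuasiEquivalent A A
  | left {A B C : DGCat.{u, v, w} k} (F : DGFun B A) (hF : F.IsQuasiEquiv) (h : QuasiEquivalent B C) :
      QuasiEquivalent A C
  | right {A B C : DGCat.{u, v, w} k} (F : DGFun A B) (hF : F.IsQuasiEquiv) (h : QuasiEquivalent B C) :
      QuasiEquivalent A C

/-- The full DG subcategory on the objects with the property `P`. -/
def fullSub (C : DGCat.{u, v, w} k) (P : C.Obj → Prop) : DGCat.{u, v, w} k where
  Obj := {X : C.Obj // P X}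
  Hom X Y n := C.Hom X.1 Y.1 n
  one X := C.one X.1
  comp h := C.comp h
  d h := C.d h
  one_comp h f := C.one_comp h f
  comp_one h f := C.comp_one h f
  assoc h₁ h₂ h₃ h₄ f g h := C.assoc h₁ h₂ h₃ h₄ f g h
  d_d h₁ h₂ f := C.d_d h₁ h₂ f
  d_comp h hl hn hm h₁ h₂ f g := C.d_comp h hl hn hm h₁ h₂ f g

/-- `Z` is a cone of the closed morphism `f : X → Y` of degree `0`: as a graded object it is the direct sum
of `Y` and of the shift of `X`, with the differential given by `f`. -/
def IsCone (C : DGCat.{u, v, w} k) {X Y : C.Obj} (f : C.Hom X Y 0) (Z : C.Obj) : Prop :=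
  ∃ (i : C.Hom Y Z 0) (p : C.Hom Z Y 0) (j : C.Hom X Z (-1)) (q : C.Hom Z X 1),
    C.comp (zero_add 0) p i = C.one Y ∧ C.comp (add_neg_cancel 1) q j = C.one X ∧
    C.comp (zero_add 0) i p + C.comp (neg_add_cancel 1) j q = C.one Z ∧
    C.comp (zero_add (-1)) p j = 0 ∧ C.comp (add_zero 1) q i = 0 ∧
    C.d (zero_add 1) i = 0 ∧ C.d (rfl : (1 : ℤ) + 1 = 1 + 1) q = 0 ∧
    C.d (neg_add_cancel 1) j = C.comp (zero_add 0) i f ∧
    C.d (zero_add 1) p = - C.comp (zero_add 1) f q

/-- `Y` is the shift of `X` by `n`: there is a closed invertible morphism `X → Y` of degree `-n`. -/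
def IsShift (C : DGCat.{u, v, w} k) (X Y : C.Obj) (n : ℤ) : Prop :=
  ∃ (f : C.Hom X Y (-n)) (g : C.Hom Y X n),
    C.d (rfl : -n + 1 = -n + 1) f = 0 ∧ C.d (rfl : n + 1 = n + 1) g = 0 ∧
    C.comp (add_neg_cancel n) g f = C.one X ∧ C.comp (neg_add_cancel n) f g = C.one Y

/-- The thick closure of a class `S` of objects: the smallest class of objects which contains `S` and is
closed under shifts, cones of closed morphisms of degree `0`, and retracts in the homotopy category (in
particular under homotopy equivalences). -/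
inductive DGThick (C : DGCat.{u, v, w} k) (S : C.Obj → Prop) : C.Obj → Prop
  | base (X : C.Obj) : S X → DGThick C S X
  | shift (X Y : C.Obj) (n : ℤ) : DGThick C S X → IsShift C X Y n → DGThick C S Y
  | cone (X Y Z : C.Obj) (f : C.Hom X Y 0) : DGThick C S X → DGThick C S Y → C.d (zero_add 1) f = 0 →
      IsCone C f Z → DGThick C S Z
  | retract (X Y : C.Obj) : DGThick C S X → C.Retract Y X → DGThick C S Y

end Pool.Agent.Helper49.RZ
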