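import Pool.Agent.Helper49.RZ.St

/-!
# Project RZ (MP_77656e_ag), literal layer, module L8: extension of scalars

For a DG functor `F : V → W` and a right DG module `M` over `V`, the module `ext F M` over `W` is the
double dual `Y ↦ Hom_V(Hom(M, V(-, X)), W(Y, F X))`, that is: its elements of degree `n` at `Y` are the
families of maps `g : Hom(M, rep X)ⁱ → W(Y, F X)ⁿ⁺ⁱ` with `g (t f) = F(t) g(f)`.
-/

set_option autoImplicit false

namespace Pool.Agent.Helper49.RZ

open Pool.Agent.Helper17.RZ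

universe u v w

noncomputable section

variable {k : Type u} [Field k] {V W : DGCat.{u, v, w} k}

/-- The differential of the identity is zero. -/
theorem d_one (C : DGCat.{u, v, w} k) (X : C.Obj) (h : (0 : ℤ) + 1 = 1) : C.d h (C.one X) = 0 := by
  have h1 := C.d_comp (zero_add 0) h h h (add_zero 1) (zero_add 1) (C.one X) (C.one X)
  rw [C.one_comp, C.comp_one, C.one_comp, Int.negOnePow_zero, one_smul] at h1
  have h2 : C.d h (C.one X) + 0 = C.d h (C.one X) + C.d h (C.one X) := by rw [add_zero]; exact h1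
  exact (add_left_cancel h2).symm

/-- Composition is compatible with signs. -/
theorem comp_sign_left (C : DGCat.{u, v, w} k) {X Y Z : C.Obj} {n m l : ℤ} (h : n + m = l) (e : ℤˣ)
    (f : C.Hom Y Z n) (g : C.Hom X Y m) : C.comp h (e • f) g = e • C.comp h f g := by
  rw [lin_sign]; rfl

theorem comp_sign_right (C : DGCat.{u, v, w} k) {X Y Z : C.Obj} {n m l : ℤ} (h : n + m = l) (e : ℤˣ)
    (f : C.Hom Y Z n) (g : C.Hom X Y m) : C.comp h f (e • g) = e • C.comp h f g := by
  rw [lin_sign]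

theorem comp_sub_left (C : DGCat.{u, v, w} k) {X Y Z : C.Obj} {n m l : ℤ} (h : n + m = l)
    (f f' : C.Hom Y Z n) (g : C.Hom X Y m) : C.comp h (f - f') g = C.comp h f g - C.comp h f' g := by
  rw [map_sub]; rfl

/-- Families of linear maps `Hom(M, rep X)ⁱ → W(Y, F X)ʲ`, `n + i = j`. -/
abbrev ExtRaw (F : DGFun V W) (M : DGMod V) (Y : W.Obj) (n : ℤ) : Type (max v w) :=
  ∀ (X : V.Obj) (p : Ix n), ModHom M (rep X) p.1.1 →ₗ[k] W.Hom Y (F.obj X) p.1.2

/-- The elements of degree `n` of the double dual. -/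
def ExtHom (F : DGFun V W) (M : DGMod V) (Y : W.Obj) (n : ℤ) : Submodule k (ExtRaw F M Y n) where
  carrier := {g | ∀ {X X' : V.Obj} {i r l i' l' : ℤ} (h₁ : r + i = l) (h₂ : n + l = l') (h₃ : n + i = i')
    (h₄ : r + i' = l') (t : V.Hom X X' r) (f : ModHom M (rep X) i),
    g X' ⟨(l, l'), h₂⟩ (compHom h₁ (repMap t) f) = W.comp h₄ (F.map t) (g X ⟨(i, i'), h₃⟩ f)}
  add_mem' := by
    intro a b ha hb X X' i r l i' l' h₁ h₂ h₃ h₄ t f
    change a X' ⟨(l, l'), h₂⟩ _ + b X' ⟨(l, l'), h₂⟩ _ = W.comp h₄ _ (a X ⟨(i, i'), h₃⟩ f + b X ⟨(i, i'), h₃⟩ f)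
    rw [ha h₁ h₂ h₃ h₄, hb h₁ h₂ h₃ h₄, map_add]
  zero_mem' := by
    intro X X' i r l i' l' h₁ h₂ h₃ h₄ t f
    change (0 : W.Hom Y (F.obj X') l') = W.comp h₄ _ 0
    rw [map_zero]
  smul_mem' := by
    intro c a ha X X' i r l i' l' h₁ h₂ h₃ h₄ t f
    change c • a X' ⟨(l, l'), h₂⟩ _ = W.comp h₄ _ (c • a X ⟨(i, i'), h₃⟩ f)
    rw [ha h₁ h₂ h₃ h₄, map_smul]

variable {F : DGFun V W}

/-- The map `Hom(M, rep X)ⁱ → W(Y, F X)ʲ` of an element of degree `n`. -/
def ev {M : DGMod V} {Y : W.Obj} {n : ℤ} (g : ExtHom F M Y n) {X : V.Obj} {i j : ℤ} (h : n + i = j) :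
    ModHom M (rep X) i →ₗ[k] W.Hom Y (F.obj X) j := g.1 X ⟨(i, j), h⟩

theorem ev_nat {M : DGMod V} {Y : W.Obj} {n : ℤ} (g : ExtHom F M Y n) {X X' : V.Obj} {i r l i' l' : ℤ}
    (h₁ : r + i = l) (h₂ : n + l = l') (h₃ : n + i = i') (h₄ : r + i' = l') (t : V.Hom X X' r)
    (f : ModHom M (rep X) i) : ev g h₂ (compHom h₁ (repMap t) f) = W.comp h₄ (F.map t) (ev g h₃ f) :=
  g.2 h₁ h₂ h₃ h₄ t f

theorem ev_ext {M : DGMod V} {Y : W.Obj} {n : ℤ} {g g' : ExtHom F M Y n}
    (H : ∀ (X : V.Obj) (i j : ℤ) (h : n + i = j) (f : ModHom M (rep X) i), ev g h f = ev g' h f) : g = g' := by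
  refine Subtype.ext (funext fun X => funext fun p => ?_)
  obtain ⟨⟨i, j⟩, h⟩ := p
  exact LinearMap.ext fun x => H X i j h x

/-- Constructor. -/
def mkExt {M : DGMod V} {Y : W.Obj} {n : ℤ}
    (g : ∀ (X : V.Obj) (i j : ℤ), n + i = j → (ModHom M (rep X) i →ₗ[k] W.Hom Y (F.obj X) j))
    (hg : ∀ {X X' : V.Obj} {i r l i' l' : ℤ} (h₁ : r + i = l) (h₂ : n + l = l') (h₃ : n + i = i')
      (h₄ : r + i' = l') (t : V.Hom X X' r) (f : ModHom M (rep X) i),
      g X' l l' h₂ (compHom h₁ (repMap t) f) = W.comp h₄ (F.map t) (g X i i' h₃ f)) : ExtHom F M Y n :=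
  ⟨fun X p => g X p.1.1 p.1.2 p.2, fun h₁ h₂ h₃ h₄ t f => hg h₁ h₂ h₃ h₄ t f⟩

/-- The differential of the double dual. -/
def extD {M : DGMod V} {Y : W.Obj} {n m : ℤ} (h : n + 1 = m) : ExtHom F M Y n →ₗ[k] ExtHom F M Y m where
  toFun g := mkExt (fun X i j hij => (i.negOnePow : ℤ) • (W.d (show n + i + 1 = j by omega) ∘ₗ
      ev g (rfl : n + i = n + i) - ev g (show n + (i + 1) = j by omega) ∘ₗ dHom (rfl : i + 1 = i + 1))) (by
    intro X X' i r l i' l' h₁ h₂ h₃ h₄ t f
    change l.negOnePow • (W.d _ (ev g _ (compHom h₁ (repMap t) f)) - ev g _ (dHom _ (compHom h₁ (repMap t) f))) =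
      W.comp h₄ (F.map t) (i.negOnePow • (W.d _ (ev g _ f) - ev g _ (dHom _ f)))
    have e1 : dHom (rfl : l + 1 = l + 1) (compHom h₁ (repMap t) f) =
        compHom (show r + 1 + i = l + 1 by omega) (repMap (V.d rfl t)) f +
          r.negOnePow • compHom (show r + (i + 1) = l + 1 by omega) (repMap t) (dHom rfl f) := by
      have := (ModCat V).d_comp h₁ (rfl : l + 1 = l + 1) (rfl : r + 1 = r + 1) (rfl : i + 1 = i + 1)
        (show r + 1 + i = l + 1 by omega) (show r + (i + 1) = l + 1 by omega) ((yon V).map t) f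
      rw [← (yon V).map_d] at this
      exact this
    rw [e1, map_add, lin_sign,
      ev_nat g h₁ (rfl : n + l = n + l) (rfl : n + i = n + i) (show r + (n + i) = n + l by omega),
      ev_nat g (show r + 1 + i = l + 1 by omega) _ (rfl : n + i = n + i) (show r + 1 + (n + i) = l' by omega),
      ev_nat g (show r + (i + 1) = l + 1 by omega) _ (show n + (i + 1) = i' by omega) h₄,
      W.d_comp _ (show n + l + 1 = l' by omega) (rfl : r + 1 = r + 1) (show n + i + 1 = i' by omega)
        (show r + 1 + (n + i) = l' by omega) h₄, F.map_d]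
    have hl : l.negOnePow = r.negOnePow * i.negOnePow := by rw [← h₁, Int.negOnePow_add]
    have e2 : r.negOnePow * i.negOnePow * r.negOnePow = i.negOnePow := by
      rw [mul_comm, ← mul_assoc, Int.units_mul_self, one_mul]
    rw [comp_sign_right, map_sub, hl, add_sub_add_left_eq_sub, ← smul_sub, smul_smul, e2])
  map_add' g g' := ev_ext fun X i j hij f => by
    change i.negOnePow • (W.d _ (ev g _ f + ev g' _ f) - (ev g _ _ + ev g' _ _)) =
      i.negOnePow • (W.d _ (ev g _ f) - ev g _ _) + i.negOnePow • (W.d _ (ev g' _ f) - ev g' _ _)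
    rw [map_add, ← smul_add]; congr 1; abel
  map_smul' c g := ev_ext fun X i j hij f => by
    change i.negOnePow • (W.d _ (c • ev g _ f) - c • ev g _ _) = c • (i.negOnePow • (W.d _ (ev g _ f) - ev g _ _))
    rw [map_smul, ← smul_sub, smul_comm]

theorem extD_ev {M : DGMod V} {Y : W.Obj} {n m : ℤ} (h : n + 1 = m) (g : ExtHom F M Y n) {X : V.Obj}
    {i j i₁ j₁ : ℤ} (hij : m + i = j) (h₁ : j₁ + 1 = j) (h₂ : n + i = j₁) (h₃ : n + i₁ = j) (h₄ : i + 1 = i₁)
    (f : ModHom M (rep X) i) :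
    ev (extD h g) hij f = i.negOnePow • (W.d h₁ (ev g h₂ f) - ev g h₃ (dHom h₄ f)) := by
  subst h₂ h₄; rfl

theorem extD_extD {M : DGMod V} {Y : W.Obj} {n m l : ℤ} (h₁ : n + 1 = m) (h₂ : m + 1 = l)
    (g : ExtHom F M Y n) : extD h₂ (extD h₁ g) = 0 := ev_ext fun X i j hij f => by
  change ev (extD h₂ (extD h₁ g)) hij f = 0
  have e1 : dHom (rfl : i + 1 + 1 = i + 1 + 1) (dHom (rfl : i + 1 = i + 1) f) = 0 :=
    (ModCat V).d_d rfl rfl f
  rw [extD_ev h₂ _ hij (show m + i + 1 = j by omega) rfl (show m + (i + 1) = j by omega) rfl,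
    extD_ev h₁ g _ (show n + i + 1 = m + i by omega) rfl (show n + (i + 1) = m + i by omega) rfl,
    extD_ev h₁ g _ (show m + i + 1 = j by omega) (show n + (i + 1) = m + i by omega)
      (show n + (i + 1 + 1) = j by omega) rfl, lin_sign, map_sub, W.d_d, zero_sub,
    e1, map_zero, sub_zero, Int.negOnePow_succ, Units.neg_smul, smul_neg, ← neg_add', add_neg_cancel,
    neg_zero, smul_zero]

/-- The action on the double dual. -/
def extAct (F : DGFun V W) (M : DGMod V) (Y' Y : W.Obj) {n m l : ℤ} (h : n + m = l) :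
    ExtHom F M Y n →ₗ[k] W.Hom Y' Y m →ₗ[k] ExtHom F M Y' l :=
  LinearMap.mk₂ k (fun g c => mkExt (fun X i j hij =>
      (W.comp (show n + i + m = j by omega)).flip c ∘ₗ ev g (rfl : n + i = n + i)) (by
        intro X X' i r s i' s' h₁ h₂ h₃ h₄ t f
        change W.comp _ (ev g _ (compHom h₁ (repMap t) f)) c = W.comp h₄ (F.map t) (W.comp _ (ev g _ f) c)
        rw [ev_nat g h₁ (rfl : n + s = n + s) (rfl : n + i = n + i) (show r + (n + i) = n + s by omega)]
        exact W.assoc _ _ _ _ _ _ _))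
    (fun g g' c => ev_ext fun X i j hij f => by
      change W.comp _ (ev g _ f + ev g' _ f) c = W.comp _ (ev g _ f) c + W.comp _ (ev g' _ f) c
      rw [map_add, LinearMap.add_apply])
    (fun a g c => ev_ext fun X i j hij f => by
      change W.comp _ (a • ev g _ f) c = a • W.comp _ (ev g _ f) c
      rw [map_smul, LinearMap.smul_apply])
    (fun g c c' => ev_ext fun X i j hij f => by
      change W.comp _ (ev g _ f) (c + c') = W.comp _ (ev g _ f) c + W.comp _ (ev g _ f) c'
      rw [map_add])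
    (fun a g c => ev_ext fun X i j hij f => by
      change W.comp _ (ev g _ f) (a • c) = a • W.comp _ (ev g _ f) c
      rw [map_smul])

theorem extAct_ev {M : DGMod V} {Y' Y : W.Obj} {n m l : ℤ} (h : n + m = l) (g : ExtHom F M Y n)
    (c : W.Hom Y' Y m) {X : V.Obj} {i j s : ℤ} (hij : l + i = s) (h₁ : n + i = j) (h₂ : j + m = s)
    (f : ModHom M (rep X) i) : ev (extAct F M Y' Y h g c) hij f = W.comp h₂ (ev g h₁ f) c := by
  subst h₁; rfl

theorem extD_extAct {M : DGMod V} {X Y : W.Obj} {n m l n' m' l' : ℤ} (h : n + m = l) (hl : l + 1 = l')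
    (hn : n + 1 = n') (hm : m + 1 = m') (h₁ : n' + m = l') (h₂ : n + m' = l') (g : ExtHom F M Y n)
    (c : W.Hom X Y m) : extD hl (extAct F M X Y h g c) = extAct F M X Y h₁ (extD hn g) c +
      n.negOnePow • extAct F M X Y h₂ g (W.d hm c) := ev_ext fun P i j hij f => by
  change ev (extD hl (extAct F M X Y h g c)) hij f = ev (extAct F M X Y h₁ (extD hn g) c) hij f +
      n.negOnePow • ev (extAct F M X Y h₂ g (W.d hm c)) hij f
  have a1 := extD_ev hl (extAct F M X Y h g c) hij (show l + i + 1 = j by omega) (rfl : l + i = l + i)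
    (show l + (i + 1) = j by omega) (rfl : i + 1 = i + 1) f
  have a2 := extAct_ev h g c (rfl : l + i = l + i) (rfl : n + i = n + i) (show n + i + m = l + i by omega) f
  have a3 := extAct_ev h g c (show l + (i + 1) = j by omega) (show n + (i + 1) = n + i + 1 by omega)
    (show n + i + 1 + m = j by omega) (dHom (rfl : i + 1 = i + 1) f)
  have a4 := extAct_ev h₁ (extD hn g) c hij (show n' + i = n + i + 1 by omega)
    (show n + i + 1 + m = j by omega) f
  have a5 := extAct_ev h₂ g (W.d hm c) hij (rfl : n + i = n + i) (show n + i + m' = j by omega) f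
  have a6 := extD_ev hn g (show n' + i = n + i + 1 by omega) (rfl : n + i + 1 = n + i + 1)
    (rfl : n + i = n + i) (show n + (i + 1) = n + i + 1 by omega) (rfl : i + 1 = i + 1) f
  have a7 := W.d_comp (show n + i + m = l + i by omega) (show l + i + 1 = j by omega)
    (rfl : n + i + 1 = n + i + 1) hm (show n + i + 1 + m = j by omega) (show n + i + m' = j by omega)
    (ev g (rfl : n + i = n + i) f) c
  refine a1.trans (Eq.trans ?_ (congrArg₂ (fun x y => x + n.negOnePow • y) a4.symm a5.symm))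
  refine (congrArg₂ (fun x y => i.negOnePow • (W.d (show l + i + 1 = j by omega) x - y)) a2 a3).trans ?_
  refine (congrArg (fun x => i.negOnePow • (x - W.comp (show n + i + 1 + m = j by omega)
    (ev g (show n + (i + 1) = n + i + 1 by omega) (dHom (rfl : i + 1 = i + 1) f)) c)) a7).trans ?_
  refine Eq.trans ?_ (congrArg (fun x => W.comp (show n + i + 1 + m = j by omega) x c + n.negOnePow •
    W.comp (show n + i + m' = j by omega) (ev g (rfl : n + i = n + i) f) (W.d hm c)) a6.symm)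
  generalize ev g (rfl : n + i = n + i) f = y
  generalize ev g (show n + (i + 1) = n + i + 1 by omega) (dHom (rfl : i + 1 = i + 1) f) = z
  rw [comp_sign_left, comp_sub_left, Int.negOnePow_add, mul_smul]
  have e2 : ∀ x : W.Hom X (F.obj P) j, i.negOnePow • n.negOnePow • i.negOnePow • x = n.negOnePow • x := by
    intro x
    rw [smul_smul, smul_smul, mul_comm i.negOnePow, mul_assoc, Int.units_mul_self, mul_one]
  rw [add_sub_right_comm, smul_add, e2]

/-- The double dual module. -/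
def extMod (F : DGFun V W) (M : DGMod V) : DGMod W where
  M Y :=
    { X := fun n => ExtHom F M Y n
      d := fun h => extD h
      d_d := fun h₁ h₂ g => extD_extD h₁ h₂ g }
  act {X Y _ _ _} h := extAct F M X Y h
  act_one {Y n} h g := ev_ext fun X i j hij f => by
    change ev (extAct F M Y Y h g (W.one Y)) hij f = ev g hij f
    rw [extAct_ev h g _ hij hij (add_zero j)]
    exact W.comp_one _ _
  act_act {X Y Z a b c ab bc l} h₁ h₂ h₃ h₄ g x y := ev_ext fun P i j hij f => by
    change ev (extAct F M X Y h₂ (extAct F M Y Z h₁ g x) y) hij f = ev (extAct F M X Z h₄ g (W.comp h₃ x y)) hij f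
    rw [extAct_ev h₂ _ y hij rfl (show ab + i + c = j by omega),
      extAct_ev h₁ g x rfl rfl (show a + i + b = ab + i by omega),
      extAct_ev h₄ g _ hij rfl (show a + i + bc = j by omega)]
    exact W.assoc _ _ _ _ _ _ _
  d_act h hl hn hm h₁ h₂ g c := extD_extAct h hl hn hm h₁ h₂ g c

end

end Pool.Agent.Helper49.RZ
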