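import Pool.Agent.Helper49.RZ.Ext

/-!
# Project RZ (MP_77656e_ag), literal layer, module L8, part 2: the DG functor `ext F`
-/

set_option autoImplicit false

namespace Pool.Agent.Helper49.RZ

open Pool.Agent.Helper17.RZ

universe u v w

noncomputable section

variable {k : Type u} [Field k] {V W : DGCat.{u, v, w} k}

theorem compHom_assoc {A B C D : DGMod V} {a b c ab bc l : ℤ} (h₁ : a + b = ab) (h₂ : ab + c = l)
    (h₃ : b + c = bc) (h₄ : a + bc = l) (f : ModHom C D a) (g : ModHom B C b) (h : ModHom A B c) :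
    compHom h₂ (compHom h₁ f g) h = compHom h₄ f (compHom h₃ g h) :=
  (ModCat V).assoc h₁ h₂ h₃ h₄ f g h

theorem dHom_comp {A B C : DGMod V} {n m l n' m' l' : ℤ} (h : n + m = l) (hl : l + 1 = l')
    (hn : n + 1 = n') (hm : m + 1 = m') (h₁ : n' + m = l') (h₂ : n + m' = l') (f : ModHom B C n)
    (g : ModHom A B m) : dHom hl (compHom h f g) = compHom h₁ (dHom hn f) g +
      n.negOnePow • compHom h₂ f (dHom hm g) :=
  (ModCat V).d_comp h hl hn hm h₁ h₂ f g

/-- Changing degrees inside `ev`. -/
theorem ev_comp_idx {F : DGFun V W} {M N : DGMod V} {Y : W.Obj} {i r : ℤ} (g : ExtHom F M Y i)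
    (u : ModHom M N r) {X : V.Obj} {a s s' b : ℤ} (h₁ : i + s = b) (h₂ : a + r = s) (h₁' : i + s' = b)
    (h₂' : a + r = s') (f : ModHom N (rep X) a) :
    ev g h₁ (compHom h₂ f u) = ev g h₁' (compHom h₂' f u) := by
  subst h₂ h₂'; rfl

/-- The action of a morphism `u` of degree `r` on an element of degree `i` of the double dual. -/
def extOn (F : DGFun V W) (M N : DGMod V) (Y : W.Obj) {r i j : ℤ} (h : r + i = j) (u : ModHom M N r) :
    ExtHom F M Y i →ₗ[k] ExtHom F N Y j where
  toFun g := mkExt (fun X a b hab => ev g (show i + (a + r) = b by omega) ∘ₗ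
      (compHom (rfl : a + r = a + r)).flip u) (by
    intro X X' a s l a' l' h₁ h₂ h₃ h₄ t f
    change ev g (show i + (l + r) = l' by omega) (compHom (rfl : l + r = l + r) (compHom h₁ (repMap t) f) u) =
      W.comp h₄ (F.map t) (ev g (show i + (a + r) = a' by omega) (compHom (rfl : a + r = a + r) f u))
    have e1 := compHom_assoc h₁ (rfl : l + r = l + r) (rfl : a + r = a + r) (show s + (a + r) = l + r by omega)
      (repMap t) f u
    refine (congrArg (ev g (show i + (l + r) = l' by omega)) e1).trans ?_
    exact ev_nat g _ _ _ _ _ _)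
  map_add' g g' := ev_ext fun X a b hab f => rfl
  map_smul' c g := ev_ext fun X a b hab f => rfl

theorem extOn_ev {F : DGFun V W} {M N : DGMod V} {Y : W.Obj} {r i j : ℤ} (h : r + i = j)
    (u : ModHom M N r) (g : ExtHom F M Y i) {X : V.Obj} {a b s : ℤ} (hab : j + a = b) (h₁ : i + s = b)
    (h₂ : a + r = s) (f : ModHom N (rep X) a) :
    ev (extOn F M N Y h u g) hab f = ev g h₁ (compHom h₂ f u) := by
  subst h₂; rfl

/-- The morphism of double duals given by a morphism `u` of degree `r`. -/
def extMap (F : DGFun V W) (M N : DGMod V) (r : ℤ) :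
    ModHom M N r →ₗ[k] ModHom (extMod F M) (extMod F N) r where
  toFun u := mkHom (fun Y i j h => extOn F M N Y h u) (by
    intro X Y i m l i' l' h₁ h₂ h₃ h₄ g c
    refine ev_ext fun P a b hab f => ?_
    have e1 := extOn_ev h₂ u (extAct F M X Y h₁ g c) hab (show l + (a + r) = b by omega) rfl f
    have e2 := extAct_ev h₁ g c (show l + (a + r) = b by omega) (rfl : i + (a + r) = i + (a + r))
      (show i + (a + r) + m = b by omega) (compHom (rfl : a + r = a + r) f u)
    have e3 := extAct_ev h₄ (extOn F M N Y h₃ u g) c hab (show i' + a = i + (a + r) by omega)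
      (show i + (a + r) + m = b by omega) f
    have e4 := extOn_ev h₃ u g (show i' + a = i + (a + r) by omega) (rfl : i + (a + r) = i + (a + r)) rfl f
    refine (e1.trans e2).trans ?_
    refine Eq.trans ?_ e3.symm
    exact congrArg (fun x => W.comp _ x c) e4.symm)
  map_add' u u' := ap_ext fun Y i j h g => ev_ext fun X a b hab f => by
    have e1 : compHom (rfl : a + r = a + r) f (u + u') = compHom (rfl : a + r = a + r) f u +
      compHom (rfl : a + r = a + r) f u' := map_add _ _ _
    have e2 := (congrArg (ev g (show i + (a + r) = b by omega)) e1).trans (map_add _ _ _)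
    exact e2
  map_smul' c u := ap_ext fun Y i j h g => ev_ext fun X a b hab f => by
    have e1 : compHom (rfl : a + r = a + r) f (c • u) = c • compHom (rfl : a + r = a + r) f u :=
      map_smul _ _ _
    have e2 := (congrArg (ev g (show i + (a + r) = b by omega)) e1).trans (map_smul _ _ _)
    exact e2

theorem extMap_ev {F : DGFun V W} {M N : DGMod V} {Y : W.Obj} {r i j : ℤ} (h : r + i = j)
    (u : ModHom M N r) (g : ExtHom F M Y i) {X : V.Obj} {a b s : ℤ} (hab : j + a = b) (h₁ : i + s = b)
    (h₂ : a + r = s) (f : ModHom N (rep X) a) :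
    ev (F := F) (M := N) (Y := Y) (n := j) (ap (extMap F M N r u) h g) hab f = ev g h₁ (compHom h₂ f u) :=
  extOn_ev h u g hab h₁ h₂ f

end

end Pool.Agent.Helper49.RZ
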