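import Pool.Agent.Helper49.RZ.Ext2

/-!
# Project RZ (MP_77656e_ag), literal layer, module L8, part 3: the DG functor `ext F`
-/

set_option autoImplicit false

namespace Pool.Agent.Helper49.RZ

open Pool.Agent.Helper17.RZ

universe u v w

noncomputable section

variable {k : Type u} [Field k] {V W : DGCat.{u, v, w} k}

theorem compHom_one {A B : DGMod V} {n : ℤ} (h : n + 0 = n) (f : ModHom A B n) :
    compHom h f (oneHom A) = f := (ModCat V).comp_one h f

theorem oneHom_comp {A B : DGMod V} {n : ℤ} (h : 0 + n = n) (f : ModHom A B n) :
    compHom h (oneHom B) f = f := (ModCat V).one_comp h f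

theorem extMap_one (F : DGFun V W) (M : DGMod V) :
    extMap F M M 0 (oneHom M) = oneHom (extMod F M) := ap_ext fun Y i j h g => by
  obtain rfl : i = j := by omega
  refine ev_ext fun X a b hab f => ?_
  have e1 := extMap_ev h (oneHom M) g hab hab (add_zero a) f
  exact e1.trans (congrArg (ev g hab) (compHom_one (add_zero a) f))

theorem extMap_comp (F : DGFun V W) {M N P : DGMod V} {n m l : ℤ} (h : n + m = l) (u : ModHom N P n)
    (t : ModHom M N m) : extMap F M P l (compHom h u t) =
      compHom h (extMap F N P n u) (extMap F M N m t) := ap_ext fun Y i j hij g => by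
  refine ev_ext fun X a b hab f => ?_
  have e1 := extMap_ev hij (compHom h u t) g hab (show i + (a + l) = b by omega) (rfl : a + l = a + l) f
  have e2 := comp_ap h (extMap F N P n u) (extMap F M N m t) hij (show n + (m + i) = j by omega)
    (rfl : m + i = m + i) g
  have e3 := extMap_ev (show n + (m + i) = j by omega) u (ap (extMap F M N m t) (rfl : m + i = m + i) g) hab
    (show m + i + (a + n) = b by omega) (rfl : a + n = a + n) f
  have e4 := extMap_ev (rfl : m + i = m + i) t g (show m + i + (a + n) = b by omega)
    (show i + (a + l) = b by omega) (show a + n + m = a + l by omega) (compHom (rfl : a + n = a + n) f u)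
  have e5 := compHom_assoc (rfl : a + n = a + n) (show a + n + m = a + l by omega) h
    (rfl : a + l = a + l) f u t
  refine e1.trans (Eq.trans ?_ (congrArg (fun x : ExtHom F P Y j => ev x hab f) e2).symm)
  refine Eq.trans ?_ (e3.trans e4).symm
  exact congrArg (ev g (show i + (a + l) = b by omega)) e5.symm

theorem extMap_d (F : DGFun V W) {M N : DGMod V} {n m : ℤ} (h : n + 1 = m) (u : ModHom M N n) :
    extMap F M N m (dHom h u) = dHom h (extMap F M N n u) := ap_ext fun Y i j hij g => by
  refine ev_ext fun X a b hab f => ?_
  have e0 := d_ap h (extMap F M N n u) hij (show n + i + 1 = j by omega) (rfl : n + i = n + i)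
    (show n + (i + 1) = j by omega) (rfl : i + 1 = i + 1) g
  have e1 := extMap_ev hij (dHom h u) g hab (show i + (a + m) = b by omega) (rfl : a + m = a + m) f
  have e2 := extD_ev (show n + i + 1 = j by omega) (ap (extMap F M N n u) (rfl : n + i = n + i) g) hab
    (show n + i + a + 1 = b by omega) (rfl : n + i + a = n + i + a) (show n + i + (a + 1) = b by omega)
    (rfl : a + 1 = a + 1) f
  have e3 := extMap_ev (rfl : n + i = n + i) u g (rfl : n + i + a = n + i + a)
    (show i + (a + n) = n + i + a by omega) (rfl : a + n = a + n) f
  have e4 := extMap_ev (rfl : n + i = n + i) u g (show n + i + (a + 1) = b by omega)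
    (show i + (a + m) = b by omega) (show a + 1 + n = a + m by omega) (dHom (rfl : a + 1 = a + 1) f)
  have e5 := extMap_ev (show n + (i + 1) = j by omega) u (extD (rfl : i + 1 = i + 1) g) hab
    (show i + 1 + (a + n) = b by omega) (rfl : a + n = a + n) f
  have e6 := extD_ev (rfl : i + 1 = i + 1) g (show i + 1 + (a + n) = b by omega)
    (show n + i + a + 1 = b by omega) (show i + (a + n) = n + i + a by omega)
    (show i + (a + m) = b by omega) (show a + n + 1 = a + m by omega) (compHom (rfl : a + n = a + n) f u)
  have e7 := dHom_comp (rfl : a + n = a + n) (show a + n + 1 = a + m by omega) (rfl : a + 1 = a + 1) h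
    (show a + 1 + n = a + m by omega) (rfl : a + m = a + m) f u
  have e8 := (congrArg (ev g (show i + (a + m) = b by omega)) e7).trans (map_add _ _ _)
  have e9 := lin_sign (ev g (show i + (a + m) = b by omega)) a.negOnePow
    (compHom (rfl : a + m = a + m) f (dHom h u))
  refine e1.trans (Eq.trans ?_ (congrArg (fun x : ExtHom F N Y j => ev x hab f) e0).symm)
  change _ = ev (F := F) (M := N) (Y := Y) (extD (show n + i + 1 = j by omega)
    (ap (extMap F M N n u) (rfl : n + i = n + i) g)) hab f - n.negOnePow •
    ev (F := F) (M := N) (Y := Y) (ap (extMap F M N n u) (show n + (i + 1) = j by omega)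
    (extD (rfl : i + 1 = i + 1) g)) hab f
  refine Eq.trans ?_ (congrArg₂ (fun x y => x - n.negOnePow • y) e2 (e5.trans e6)).symm
  refine Eq.trans ?_ (congrArg₂ (fun x y => a.negOnePow • (W.d (show n + i + a + 1 = b by omega) x - y) -
    n.negOnePow • (a + n).negOnePow • (W.d (show n + i + a + 1 = b by omega)
    (ev g (show i + (a + n) = n + i + a by omega) (compHom (rfl : a + n = a + n) f u)) -
    ev g (show i + (a + m) = b by omega) (dHom (show a + n + 1 = a + m by omega)
      (compHom (rfl : a + n = a + n) f u)))) e3 e4).symm
  refine Eq.trans ?_ (congrArg (fun x => a.negOnePow • (W.d (show n + i + a + 1 = b by omega)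
    (ev g (show i + (a + n) = n + i + a by omega) (compHom (rfl : a + n = a + n) f u)) -
    ev g (show i + (a + m) = b by omega) (compHom (show a + 1 + n = a + m by omega)
      (dHom (rfl : a + 1 = a + 1) f) u)) -
    n.negOnePow • (a + n).negOnePow • (W.d (show n + i + a + 1 = b by omega)
    (ev g (show i + (a + n) = n + i + a by omega) (compHom (rfl : a + n = a + n) f u)) - x)) e8).symm
  refine Eq.trans ?_ (congrArg (fun x => a.negOnePow • (W.d (show n + i + a + 1 = b by omega)
    (ev g (show i + (a + n) = n + i + a by omega) (compHom (rfl : a + n = a + n) f u)) -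
    ev g (show i + (a + m) = b by omega) (compHom (show a + 1 + n = a + m by omega)
      (dHom (rfl : a + 1 = a + 1) f) u)) -
    n.negOnePow • (a + n).negOnePow • (W.d (show n + i + a + 1 = b by omega)
    (ev g (show i + (a + n) = n + i + a by omega) (compHom (rfl : a + n = a + n) f u)) -
    (ev g (show i + (a + m) = b by omega) (compHom (show a + 1 + n = a + m by omega)
      (dHom (rfl : a + 1 = a + 1) f) u) + x))) e9).symm
  generalize ev g (show i + (a + m) = b by omega) (compHom (rfl : a + m = a + m) f (dHom h u)) = z
  generalize ev g (show i + (a + m) = b by omega) (compHom (show a + 1 + n = a + m by omega)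
      (dHom (rfl : a + 1 = a + 1) f) u) = y
  generalize W.d (show n + i + a + 1 = b by omega)
    (ev g (show i + (a + n) = n + i + a by omega) (compHom (rfl : a + n = a + n) f u)) = x
  have e10 : n.negOnePow * (a + n).negOnePow = a.negOnePow := by
    rw [Int.negOnePow_add, mul_comm, mul_assoc, Int.units_mul_self, mul_one]
  have e11 : a.negOnePow • a.negOnePow • z = z := by rw [smul_smul, Int.units_mul_self, one_smul]
  rw [smul_smul, e10, ← sub_sub, smul_sub a.negOnePow (x - y) (a.negOnePow • z), e11]
  abel

/-- Extension of scalars along `F`. -/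
def extFun (F : DGFun V W) : DGFun (ModCat V) (ModCat W) where
  obj M := extMod F M
  map {M N n} := extMap F M N n
  map_one M := extMap_one F M
  map_comp h u t := extMap_comp F h u t
  map_d h u := extMap_d F h u

end

end Pool.Agent.Helper49.RZ
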