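import Pool.Agent.Helper49.RZ.Ext3
import Pool.Agent.Helper64.RZL.Yon

/-!
# Project RZ (MP_77656e_ag), literal layer, module L8, part 4: `ext F (rep X)` is `rep (F X)`
-/

set_option autoImplicit false

namespace Pool.Agent.Helper49.RZ

open Pool.Agent.Helper17.RZ

universe u v w

noncomputable section

variable {k : Type u} [Field k] {V W : DGCat.{u, v, w} k}

/-- The value at the identity of a morphism of representable modules. -/
def val {V : DGCat.{u, v, w} k} {X Y : V.Obj} {n : ℤ} : ModHom (rep X) (rep Y) n →ₗ[k] V.Hom X Y n where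
  toFun f := ULift.down (ap f (add_zero n) (ULift.up (V.one X) : ULift _))
  map_add' _ _ := rfl
  map_smul' _ _ := rfl

theorem val_repMap {X Y : V.Obj} {n : ℤ} (t : V.Hom X Y n) : val (repMap t) = t :=
  V.comp_one (add_zero n) t

theorem repMap_val {X Y : V.Obj} {n : ℤ} (f : ModHom (rep X) (rep Y) n) : repMap (val f) = f :=
  (Pool.Agent.Helper64.RZL.yon_surj f).symm

theorem repMap_comp {X Y Z : V.Obj} {n m l : ℤ} (h : n + m = l) (s : V.Hom Y Z n) (t : V.Hom X Y m) :
    repMap (V.comp h s t) = compHom h (repMap s) (repMap t) := (yon V).map_comp h s t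

theorem repMap_d {X Y : V.Obj} {n m : ℤ} (h : n + 1 = m) (t : V.Hom X Y n) :
    repMap (V.d h t) = dHom h (repMap t) := (yon V).map_d h t

theorem val_comp {X Y Z : V.Obj} {n m l : ℤ} (h : n + m = l) (f : ModHom (rep Y) (rep Z) n)
    (g : ModHom (rep X) (rep Y) m) : val (compHom h f g) = V.comp h (val f) (val g) := by
  have h1 := congrArg₂ (fun x y => val (compHom h x y)) (repMap_val f) (repMap_val g)
  exact h1.symm.trans ((congrArg val (repMap_comp h (val f) (val g)).symm).trans (val_repMap _))

theorem val_d {X Y : V.Obj} {n m : ℤ} (h : n + 1 = m) (f : ModHom (rep X) (rep Y) n) :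
    val (dHom h f) = V.d h (val f) := by
  have h1 := congrArg (fun x => val (dHom h x)) (repMap_val f)
  exact h1.symm.trans ((congrArg val (repMap_d h (val f)).symm).trans (val_repMap _))

theorem val_one (X : V.Obj) : val (oneHom (rep X)) = V.one X := rfl

/-- The element of the double dual of `rep X` given by `c : Y → F X`. -/
def gC (F : DGFun V W) (X : V.Obj) (Y : W.Obj) (n : ℤ) : W.Hom Y (F.obj X) n →ₗ[k] ExtHom F (rep X) Y n where
  toFun c := mkExt (fun X' a b hab => (W.comp (show a + n = b by omega)).flip c ∘ₗ F.map ∘ₗ val) (by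
    intro X' X'' i r l i' l' h₁ h₂ h₃ h₄ t f
    change W.comp (show l + n = l' by omega) (F.map (val (compHom h₁ (repMap t) f))) c =
      W.comp h₄ (F.map t) (W.comp (show i + n = i' by omega) (F.map (val f)) c)
    rw [val_comp, val_repMap, F.map_comp]
    exact W.assoc _ _ _ _ _ _ _)
  map_add' c c' := ev_ext fun X' a b hab f => by
    change W.comp _ (F.map (val f)) (c + c') = W.comp _ (F.map (val f)) c + W.comp _ (F.map (val f)) c'
    rw [map_add]
  map_smul' r c := ev_ext fun X' a b hab f => by
    change W.comp _ (F.map (val f)) (r • c) = r • W.comp _ (F.map (val f)) c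
    rw [map_smul]

theorem gC_ev (F : DGFun V W) (X : V.Obj) (Y : W.Obj) {n : ℤ} (c : W.Hom Y (F.obj X) n) {X' : V.Obj}
    {a b : ℤ} (hab : n + a = b) (h₁ : a + n = b) (f : ModHom (rep X) (rep X') a) :
    ev (gC F X Y n c) hab f = W.comp h₁ (F.map (val f)) c := rfl

/-- The morphism `rep (F X) → ext F (rep X)`. -/
def theta (F : DGFun V W) (X : V.Obj) : ModHom (rep (F.obj X)) (extMod F (rep X)) 0 :=
  mkHom (fun Y i j h => gcast ((extMod F (rep X)).M Y) ((zero_add _).symm.trans h) ∘ₗ
      gC F X Y i ∘ₗ ULift.moduleEquiv.toLinearMap) (by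
    intro Y Y' i m l i' l' h₁ h₂ h₃ h₄ c y
    obtain rfl : i = i' := by omega
    obtain rfl : l = l' := by omega
    refine ev_ext fun X' a b hab f => ?_
    change W.comp (show a + l = b by omega) (F.map (val f)) (W.comp h₁ c.down y) =
      ev (extAct F (rep X) Y Y' h₄ (gC F X Y' i c.down) y) hab f
    have e1 := extAct_ev h₄ (gC F X Y' i c.down) y hab (rfl : i + a = i + a)
      (show i + a + m = b by omega) f
    refine Eq.trans ?_ e1.symm
    refine Eq.trans ?_ (congrArg (fun x => W.comp (show i + a + m = b by omega) x y)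
      (gC_ev F X Y' c.down (rfl : i + a = i + a) (show a + i = i + a by omega) f)).symm
    exact (W.assoc _ _ _ _ _ _ _).symm)

theorem theta_ap (F : DGFun V W) (X : V.Obj) {Y : W.Obj} {i : ℤ} (h : 0 + i = i)
    (c : ((rep (F.obj X)).M Y).X i) : ap (theta F X) h c = gC F X Y i (ULift.down c) := rfl

/-- The morphism `ext F (rep X) → rep (F X)`. -/
def eta (F : DGFun V W) (X : V.Obj) : ModHom (extMod F (rep X)) (rep (F.obj X)) 0 :=
  mkHom (fun Y i j h =>
    { toFun := fun g => ULift.up (ev (F := F) (M := rep X) (Y := Y) (n := i) g (show i + 0 = j by omega)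
        (oneHom (rep X)))
      map_add' := fun _ _ => rfl
      map_smul' := fun _ _ => rfl }) (by
    intro Y Y' i m l i' l' h₁ h₂ h₃ h₄ g y
    refine ULift.ext _ _ ?_
    exact extAct_ev h₁ g y (show l + 0 = l' by omega) (show i + 0 = i' by omega) h₄ (oneHom (rep X)))

theorem eta_ap (F : DGFun V W) (X : V.Obj) {Y : W.Obj} {i j : ℤ} (h : 0 + i = j) (h₁ : i + 0 = j)
    (g : ExtHom F (rep X) Y i) : ULift.down (ap (eta F X) h g) = ev g h₁ (oneHom (rep X)) := rfl

theorem eta_theta (F : DGFun V W) (X : V.Obj) :
    compHom (zero_add 0) (eta F X) (theta F X) = oneHom (rep (F.obj X)) := ap_ext fun Y i j h c => by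
  obtain rfl : i = j := by omega
  refine (comp_ap (zero_add 0) (eta F X) (theta F X) h h h c).trans ?_
  refine ULift.ext _ _ ?_
  change W.comp (show 0 + i = i by omega) (F.map (val (oneHom (rep X)))) c.down = c.down
  rw [val_one, F.map_one]
  exact W.one_comp _ _

theorem theta_eta (F : DGFun V W) (X : V.Obj) :
    compHom (zero_add 0) (theta F X) (eta F X) = oneHom (extMod F (rep X)) := ap_ext fun Y i j h g => by
  obtain rfl : i = j := by omega
  refine (comp_ap (zero_add 0) (theta F X) (eta F X) h h h g).trans ?_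
  refine ev_ext fun X' a b hab f => ?_
  change W.comp (show a + i = b by omega) (F.map (val f)) (ev (F := F) (M := rep X) (Y := Y) (n := i) g
    (show i + 0 = i by omega) (oneHom (rep X))) = ev (F := F) (M := rep X) (Y := Y) (n := i) g hab f
  have e1 := ev_nat (F := F) (M := rep X) (Y := Y) (n := i) g (add_zero a) hab (add_zero i)
    (show a + i = b by omega) (val f) (oneHom (rep X))
  refine e1.symm.trans (congrArg (ev (F := F) (M := rep X) (Y := Y) (n := i) g hab) ?_)
  exact (compHom_one (add_zero a) (repMap (val f))).trans (repMap_val f)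

theorem theta_closed (F : DGFun V W) (X : V.Obj) : dHom (zero_add 1) (theta F X) = 0 :=
  ap_ext fun Y i j h c => by
  refine (d_ap (zero_add 1) (theta F X) h (show i + 1 = j by omega) (zero_add i) (zero_add j)
    (show i + 1 = j by omega) c).trans ?_
  rw [Int.negOnePow_zero, one_smul]
  refine (sub_eq_zero.mpr ?_ : _ = (0 : ((extMod F (rep X)).M Y).X j))
  refine ev_ext fun X' a b hab f => ?_
  change ev (extD (show i + 1 = j by omega) (gC F X Y i c.down)) hab f =
    W.comp (show a + j = b by omega) (F.map (val f)) (W.d (show i + 1 = j by omega) c.down)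
  have e1 := extD_ev (show i + 1 = j by omega) (gC F X Y i c.down) hab (show i + a + 1 = b by omega)
    (rfl : i + a = i + a) (show i + (a + 1) = b by omega) (rfl : a + 1 = a + 1) f
  refine e1.trans ?_
  have e2 := gC_ev F X Y c.down (rfl : i + a = i + a) (show a + i = i + a by omega) f
  have e3 := gC_ev F X Y c.down (show i + (a + 1) = b by omega) (show a + 1 + i = b by omega)
    (dHom (rfl : a + 1 = a + 1) f)
  refine (congrArg₂ (fun x y => a.negOnePow • (W.d (show i + a + 1 = b by omega) x - y)) e2 e3).trans ?_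
  have e4 := W.d_comp (show a + i = i + a by omega) (show i + a + 1 = b by omega)
    (rfl : a + 1 = a + 1) (show i + 1 = j by omega) (show a + 1 + i = b by omega)
    (show a + j = b by omega) (F.map (val f)) c.down
  rw [val_d, F.map_d]
  refine (congrArg (fun x => a.negOnePow • (x - W.comp (show a + 1 + i = b by omega)
    (W.d (rfl : a + 1 = a + 1) (F.map (val f))) c.down)) e4).trans ?_
  rw [add_sub_cancel_left, smul_smul, Int.units_mul_self, one_smul]

theorem eta_closed (F : DGFun V W) (X : V.Obj) : dHom (zero_add 1) (eta F X) = 0 :=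
  ap_ext fun Y i j h g => by
  refine (d_ap (zero_add 1) (eta F X) h (show i + 1 = j by omega) (zero_add i) (zero_add j)
    (show i + 1 = j by omega) g).trans ?_
  rw [Int.negOnePow_zero, one_smul]
  refine (sub_eq_zero.mpr ?_ : _ = (0 : ((rep (F.obj X)).M Y).X j))
  refine ULift.ext _ _ ?_
  change W.d (show i + 1 = j by omega) (ev (F := F) (M := rep X) (Y := Y) (n := i) g
    (show i + 0 = i by omega) (oneHom (rep X))) = ev (F := F) (M := rep X) (Y := Y) (n := j)
    (extD (show i + 1 = j by omega) g) (show j + 0 = j by omega) (oneHom (rep X))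
  have e1 := extD_ev (F := F) (M := rep X) (Y := Y) (show i + 1 = j by omega) g
    (show j + 0 = j by omega) (show i + 1 = j by omega) (add_zero i) (show i + 1 = j by omega)
    (zero_add 1) (oneHom (rep X))
  refine Eq.trans ?_ e1.symm
  have e2 : dHom (zero_add 1) (oneHom (rep X)) = 0 := d_one (ModCat V) (rep X) (zero_add 1)
  refine Eq.trans ?_ (congrArg (fun x => Int.negOnePow 0 • (W.d (show i + 1 = j by omega)
    (ev (F := F) (M := rep X) (Y := Y) (n := i) g (add_zero i) (oneHom (rep X))) -
    ev (F := F) (M := rep X) (Y := Y) (n := i) g (show i + 1 = j by omega) x)) e2).symm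
  rw [map_zero, sub_zero, Int.negOnePow_zero, one_smul]

end

end Pool.Agent.Helper49.RZ
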