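import Pool.Agent.Helper49.RZ.Ext4

/-!
# Project RZ (MP_77656e_ag), literal layer, module L8, part 5: the theorem `extension`
-/

set_option autoImplicit false

namespace Pool.Agent.Helper49.RZ

open Pool.Agent.Helper17.RZ

universe u v w

noncomputable section

variable {k : Type u} [Field k]

/-- Composition with fixed morphisms of degree `0` on both sides. -/
def conj2 (C : DGCat.{u, v, w} k) {A A' B B' : C.Obj} (b : C.Hom B B' 0) (a : C.Hom A' A 0) (n : ℤ) :
    C.Hom A B n →ₗ[k] C.Hom A' B' n :=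
  (C.comp (add_zero n)).flip a ∘ₗ C.comp (zero_add n) b

theorem conj2_apply (C : DGCat.{u, v, w} k) {A A' B B' : C.Obj} (b : C.Hom B B' 0) (a : C.Hom A' A 0)
    {n : ℤ} (ψ : C.Hom A B n) : conj2 C b a n ψ = C.comp (add_zero n) (C.comp (zero_add n) b ψ) a := rfl

theorem conj2_conj2 (C : DGCat.{u, v, w} k) {A A' B B' : C.Obj} (b : C.Hom B B' 0) (b' : C.Hom B' B 0)
    (a : C.Hom A' A 0) (a' : C.Hom A A' 0) (hb : C.comp (zero_add 0) b' b = C.one B)
    (ha : C.comp (zero_add 0) a a' = C.one A) {n : ℤ} (ψ : C.Hom A B n) :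
    conj2 C b' a' n (conj2 C b a n ψ) = ψ := by
  rw [conj2_apply, conj2_apply,
    ← C.assoc (zero_add n) (add_zero n) (add_zero n) (zero_add n) b' (C.comp (zero_add n) b ψ) a,
    ← C.assoc (zero_add 0) (zero_add n) (zero_add n) (zero_add n) b' b ψ, hb, C.one_comp,
    C.assoc (add_zero n) (add_zero n) (zero_add 0) (add_zero n) ψ a a', ha, C.comp_one]

theorem conj2_d (C : DGCat.{u, v, w} k) {A A' B B' : C.Obj} (b : C.Hom B B' 0) (a : C.Hom A' A 0)
    (hb : C.d (zero_add 1) b = 0) (ha : C.d (zero_add 1) a = 0) {n m : ℤ} (h : n + 1 = m)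
    (ψ : C.Hom A B n) : C.d h (conj2 C b a n ψ) = conj2 C b a m (C.d h ψ) := by
  rw [conj2_apply, conj2_apply, C.d_comp (add_zero n) h h (zero_add 1) (add_zero m) h,
    ha, map_zero, smul_zero, add_zero,
    C.d_comp (zero_add n) h (zero_add 1) h (show 1 + n = m by omega) (zero_add m) b ψ, hb, map_zero,
    LinearMap.zero_apply, zero_add, Int.negOnePow_zero, one_smul]

variable {V W : DGCat.{u, v, w} k}

/-- Composition with fixed morphisms of modules of degree `0` on both sides. -/
def cj {A A' B B' : DGMod W} (b : ModHom B B' 0) (a : ModHom A' A 0) (n : ℤ) :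
    ModHom A B n →ₗ[k] ModHom A' B' n :=
  (compHom (add_zero n)).flip a ∘ₗ compHom (zero_add n) b

theorem cj_cj {A A' B B' : DGMod W} (b : ModHom B B' 0) (b' : ModHom B' B 0)
    (a : ModHom A' A 0) (a' : ModHom A A' 0) (hb : compHom (zero_add 0) b' b = oneHom B)
    (ha : compHom (zero_add 0) a a' = oneHom A) {n : ℤ} (ψ : ModHom A B n) :
    cj b' a' n (cj b a n ψ) = ψ := conj2_conj2 (ModCat W) b b' a a' hb ha ψ

theorem cj_d {A A' B B' : DGMod W} (b : ModHom B B' 0) (a : ModHom A' A 0)
    (hb : dHom (zero_add 1) b = 0) (ha : dHom (zero_add 1) a = 0) {n m : ℤ} (h : n + 1 = m)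
    (ψ : ModHom A B n) : dHom h (cj b a n ψ) = cj b a m (dHom h ψ) :=
  conj2_d (ModCat W) b a hb ha h ψ

/-- The maps between the double duals of representable modules come from morphisms of `W`. -/
def beta (F : DGFun V W) (X Y : V.Obj) (n : ℤ) :
    ModHom (extMod F (rep X)) (extMod F (rep Y)) n →ₗ[k] W.Hom (F.obj X) (F.obj Y) n :=
  val ∘ₗ cj (eta F Y) (theta F X) n

/-- The inverse of `beta`. -/
def beta' (F : DGFun V W) (X Y : V.Obj) (n : ℤ) :
    W.Hom (F.obj X) (F.obj Y) n →ₗ[k] ModHom (extMod F (rep X)) (extMod F (rep Y)) n :=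
  cj (theta F Y) (eta F X) n ∘ₗ repMap

theorem beta_beta' (F : DGFun V W) (X Y : V.Obj) {n : ℤ} (s : W.Hom (F.obj X) (F.obj Y) n) :
    beta F X Y n (beta' F X Y n s) = s := by
  have e1 : cj (eta F Y) (theta F X) n (cj (theta F Y) (eta F X) n (repMap s)) =
      repMap s := cj_cj _ _ _ _ (eta_theta F Y) (eta_theta F X) _
  exact (congrArg val e1).trans (val_repMap s)

theorem beta'_beta (F : DGFun V W) (X Y : V.Obj) {n : ℤ}
    (ψ : ModHom (extMod F (rep X)) (extMod F (rep Y)) n) : beta' F X Y n (beta F X Y n ψ) = ψ := by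
  have e1 : cj (theta F Y) (eta F X) n (cj (eta F Y) (theta F X) n ψ) =
      ψ := cj_cj _ _ _ _ (theta_eta F Y) (theta_eta F X) _
  have e2 : repMap (val (cj (eta F Y) (theta F X) n ψ)) =
    cj (eta F Y) (theta F X) n ψ := repMap_val _
  exact (congrArg (cj (theta F Y) (eta F X) n) e2).trans e1

theorem beta_d (F : DGFun V W) (X Y : V.Obj) {n m : ℤ} (h : n + 1 = m)
    (ψ : ModHom (extMod F (rep X)) (extMod F (rep Y)) n) :
    beta F X Y m (dHom h ψ) = W.d h (beta F X Y n ψ) := by
  have e1 := cj_d (eta F Y) (theta F X) (eta_closed F Y) (theta_closed F X) h ψ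
  exact (congrArg val e1).symm.trans (val_d h _)

theorem beta_extMap (F : DGFun V W) (X Y : V.Obj) {n : ℤ} (t : V.Hom X Y n) :
    beta F X Y n (extMap F (rep X) (rep Y) n (repMap t)) = F.map t := by
  have e1 := comp_ap (add_zero n) (compHom (zero_add n) (eta F Y) (extMap F (rep X) (rep Y) n (repMap t)))
    (theta F X) (add_zero n) (add_zero n) (zero_add 0)
    (ULift.up (W.one (F.obj X)) : ((rep (F.obj X)).M (F.obj X)).X 0)
  have e2 := comp_ap (zero_add n) (eta F Y) (extMap F (rep X) (rep Y) n (repMap t)) (add_zero n)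
    (zero_add n) (add_zero n) (ap (theta F X) (zero_add 0)
      (ULift.up (W.one (F.obj X)) : ((rep (F.obj X)).M (F.obj X)).X 0))
  refine (congrArg ULift.down (e1.trans e2)).trans ?_
  change ev (F := F) (M := rep Y) (Y := F.obj X) (n := n) (ap (extMap F (rep X) (rep Y) n (repMap t))
    (add_zero n) (gC F X (F.obj X) 0 (W.one (F.obj X)))) (show n + 0 = n by omega) (oneHom (rep Y)) = _
  have e3 := extMap_ev (add_zero n) (repMap t) (gC F X (F.obj X) 0 (W.one (F.obj X))) (add_zero n)
    (zero_add n) (zero_add n) (oneHom (rep Y))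
  refine e3.trans ?_
  have e4 := gC_ev F X (F.obj X) (W.one (F.obj X)) (zero_add n) (add_zero n)
    (compHom (zero_add n) (oneHom (rep Y)) (repMap t))
  refine e4.trans ((W.comp_one _ _).trans ?_)
  exact congrArg F.map ((congrArg val (oneHom_comp (zero_add n) (repMap t))).trans (val_repMap t))

theorem extQI (F : DGFun V W) (hF : ∀ X Y, (F.onHom X Y).QI) (X Y : V.Obj) :
    ((extFun F).onHom (rep X) (rep Y)).QI := by
  constructor
  · intro l n m h₁ h₂ x y hx hxy
    have hx' : dHom h₂ (A := rep X) (B := rep Y) x = 0 := hx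
    have hxy' : extMap F (rep X) (rep Y) n x = dHom h₁ y := hxy
    have e1 : V.d h₂ (val x) = 0 := (val_d h₂ x).symm.trans ((congrArg val hx').trans (map_zero _))
    have e2 : F.map (val x) = W.d h₁ (beta F X Y l y) := by
      have e3 := beta_extMap F X Y (val x)
      have e4 : extMap F (rep X) (rep Y) n (repMap (val x)) = dHom h₁ y :=
        (congrArg (extMap F (rep X) (rep Y) n) (repMap_val x)).trans hxy'
      exact e3.symm.trans ((congrArg (beta F X Y n) e4).trans (beta_d F X Y h₁ y))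
    obtain ⟨z, hz⟩ := (hF X Y).inj h₁ h₂ (val x) (beta F X Y l y) e1 e2
    refine ⟨repMap z, ?_⟩
    exact (repMap_val x).symm.trans ((congrArg repMap hz).trans (repMap_d h₁ z))
  · intro l n m h₁ h₂ y hy
    have hy' : dHom h₂ (A := extMod F (rep X)) (B := extMod F (rep Y)) y = 0 := hy
    have e1 : W.d h₂ (beta F X Y n y) = 0 :=
      (beta_d F X Y h₂ y).symm.trans ((congrArg (beta F X Y m) hy').trans (map_zero _))
    obtain ⟨x, z, hx, hz⟩ := (hF X Y).surj h₁ h₂ (beta F X Y n y) e1
    refine ⟨repMap x, beta' F X Y l z, (repMap_d h₂ x).symm.trans ((congrArg repMap hx).trans (map_zero _)), ?_⟩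
    have e2 : beta F X Y n (extMap F (rep X) (rep Y) n (repMap x) + dHom h₁ (beta' F X Y l z)) =
        beta F X Y n y := by
      refine (map_add _ _ _).trans (Eq.trans ?_ hz.symm)
      exact congrArg₂ (· + ·) (beta_extMap F X Y x)
        ((beta_d F X Y h₁ _).trans (congrArg (W.d h₁) (beta_beta' F X Y z)))
    have e3 := congrArg (beta' F X Y n) e2
    exact ((beta'_beta F X Y _).symm.trans (e3.trans (beta'_beta F X Y _))).symm

theorem comp_eq_one_add_d {A : DGMod W} {f : ModHom A A 0} (h : f = oneHom A) :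
    f = oneHom A + dHom (neg_add_cancel 1) (0 : ModHom A A (-1)) :=
  h.trans ((add_zero _).symm.trans (congrArg (fun x => oneHom A + x)
    (dHom (neg_add_cancel 1) : ModHom A A (-1) →ₗ[k] ModHom A A 0).map_zero.symm))

theorem extRep (F : DGFun V W) (X : V.Obj) : HEquiv (ModCat W) ((extFun F).obj (rep X)) (rep (F.obj X)) :=
  ⟨eta F X, theta F X, (0 : ModHom (extMod F (rep X)) (extMod F (rep X)) (-1)),
    (0 : ModHom (rep (F.obj X)) (rep (F.obj X)) (-1)), eta_closed F X, theta_closed F X,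
    comp_eq_one_add_d (theta_eta F X), comp_eq_one_add_d (eta_theta F X)⟩

theorem extension : Extension.{u, v, w} := by
  intro k _ V W F hF
  exact ⟨extFun F, fun X => extRep F X, fun X Y => extQI F hF X Y⟩

end

end Pool.Agent.Helper49.RZ
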